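import Pool.Agent.TH924.PC.Sieve

set_option autoImplicit false

/-!
The larger sieve for rational numbers, with a different bound for every prime.
-/

namespace Pool.Agent.U927.PC

open Finset
open Pool.Agent.TH924.PC (sum_log_dvd)

/-- The reduction of a rational number. -/
def red (p : ℕ) (q : ℚ) : ZMod p := (q.num : ZMod p) * (q.den : ZMod p)⁻¹

open Classical in
/-- The pairs of `S` which are congruent modulo `p` and have the property `A`. -/
noncomputable def pr (A : ℕ → ℚ → Prop) (S : Finset ℚ) (p : ℕ) : Finset (ℚ × ℚ) :=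
  (S ×ˢ S).filter fun x => (A p x.1 ∧ A p x.2) ∧ red p x.1 = red p x.2

lemma dvd_of_red {p : ℕ} [Fact p.Prime] {q q' : ℚ} (h : (q.den : ZMod p) ≠ 0)
    (h' : (q'.den : ZMod p) ≠ 0) (hq : red p q = red p q') :
    p ∣ (q.num * q'.den - q'.num * q.den).natAbs := by
  rw [← Int.natCast_dvd, ← ZMod.intCast_zmod_eq_zero_iff_dvd]
  unfold red at hq
  push_cast
  field_simp at hq
  linear_combination hq

lemma cross_ne {q q' : ℚ} (h : q ≠ q') : (q.num * q'.den - q'.num * q.den).natAbs ≠ 0 := by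
  rw [Int.natAbs_ne_zero]
  intro h0
  apply h
  rw [← Rat.num_div_den q, ← Rat.num_div_den q', div_eq_div_iff (by exact_mod_cast q.den_nz)
    (by exact_mod_cast q'.den_nz)]
  have h1 : q.num * q'.den = q'.num * q.den := by linarith
  exact_mod_cast h1

lemma pairs_le {P : Finset ℕ} (hP : ∀ p ∈ P, p.Prime) {A : ℕ → ℚ → Prop}
    (hA : ∀ p ∈ P, ∀ q, A p q → (q.den : ZMod p) ≠ 0) {S : Finset ℚ} {H : ℝ} (hH : 1 ≤ H)
    (hS : ∀ q ∈ S, ∀ q' ∈ S, |(q.num : ℝ)| * q'.den ≤ H) :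
    ∑ p ∈ P, Real.log p * (pr A S p).card ≤
      (S.card : ℝ) ^ 2 * Real.log (2 * H) + S.card * ∑ p ∈ P, Real.log p := by
  classical
  have h1 : ∀ p ∈ P, Real.log p * (pr A S p).card =
      ∑ x ∈ S ×ˢ S, if (A p x.1 ∧ A p x.2) ∧ red p x.1 = red p x.2 then Real.log p else 0 := by
    intro p _
    rw [pr, card_filter, Nat.cast_sum, mul_sum]
    refine sum_congr rfl fun x _ => ?_
    split_ifs <;> simp
  rw [sum_congr rfl h1, sum_comm]
  have hlog : 0 ≤ Real.log (2 * H) := Real.log_nonneg (by linarith)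
  have h2 : ∀ x ∈ S ×ˢ S, (∑ p ∈ P, if (A p x.1 ∧ A p x.2) ∧ red p x.1 = red p x.2 then Real.log p
      else 0) ≤ Real.log (2 * H) + if x.1 = x.2 then ∑ p ∈ P, Real.log p else 0 := by
    intro x hx
    rw [mem_product] at hx
    by_cases h : x.1 = x.2
    · rw [if_pos h]
      have : ∑ p ∈ P, (if (A p x.1 ∧ A p x.2) ∧ red p x.1 = red p x.2 then Real.log p else 0) ≤
          ∑ p ∈ P, Real.log p := by
        refine sum_le_sum fun p _ => ?_
        split_ifs
        · exact le_rfl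
        · exact Real.log_natCast_nonneg p
      linarith
    · rw [if_neg h, add_zero, ← sum_filter]
      have hm := cross_ne h
      have h3 : P.filter (fun p => (A p x.1 ∧ A p x.2) ∧ red p x.1 = red p x.2) ⊆
          P.filter (· ∣ (x.1.num * x.2.den - x.2.num * x.1.den).natAbs) := by
        intro p hp
        rw [mem_filter] at hp ⊢
        have : Fact p.Prime := ⟨hP p hp.1⟩
        exact ⟨hp.1, dvd_of_red (hA p hp.1 _ hp.2.1.1) (hA p hp.1 _ hp.2.1.2) hp.2.2⟩
      refine (sum_le_sum_of_subset_of_nonneg h3 fun p _ _ => Real.log_natCast_nonneg p).trans ?_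
      refine (sum_log_dvd hP hm).trans ?_
      refine Real.log_le_log (by exact_mod_cast Nat.pos_of_ne_zero hm) ?_
      rw [Nat.cast_natAbs, Int.cast_abs, Int.cast_sub, Int.cast_mul, Int.cast_mul]
      have h4 := hS _ hx.1 _ hx.2
      have h5 := hS _ hx.2 _ hx.1
      have h6 := abs_sub ((x.1.num : ℝ) * (x.2.den : ℤ)) ((x.2.num : ℝ) * (x.1.den : ℤ))
      rw [abs_mul, abs_mul] at h6
      simp only [Int.cast_natCast, Nat.abs_cast] at h6 ⊢
      linarith
  refine (sum_le_sum h2).trans ?_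
  rw [sum_add_distrib, sum_const, card_product, nsmul_eq_mul]
  have h4 : ∑ x ∈ S ×ˢ S, (if x.1 = x.2 then ∑ p ∈ P, Real.log p else 0) =
      S.card * ∑ p ∈ P, Real.log p := by
    rw [sum_product]
    simp only [sum_ite_eq, sum_ite_mem, inter_self, sum_const, nsmul_eq_mul]
  rw [h4]
  push_cast
  nlinarith

open Classical in
lemma cs (A : ℕ → ℚ → Prop) (S : Finset ℚ) (p : ℕ) :
    ((S.filter (A p)).card : ℝ) ^ 2 ≤
      (((S.filter (A p)).image (red p)).card : ℝ) * (pr A S p).card := by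
  set U := S.filter (A p) with hU
  set I := U.image (red p) with hI
  have h1 : (U.card : ℝ) = ∑ a ∈ I, ((U.filter fun q => red p q = a).card : ℝ) := by
    rw [← Nat.cast_sum]
    congr 1
    exact card_eq_sum_card_fiberwise fun q hq => mem_image_of_mem _ hq
  have h2 : ((pr A S p).card : ℝ) = ∑ a ∈ I, ((U.filter fun q => red p q = a).card : ℝ) ^ 2 := by
    have h3 : (pr A S p).card = ∑ a ∈ I, ((pr A S p).filter fun x => red p x.1 = a).card := by
      refine card_eq_sum_card_fiberwise fun x hx => ?_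
      have hx' : x ∈ pr A S p := hx
      simp only [pr, mem_filter, mem_product] at hx'
      exact mem_image_of_mem _ (mem_filter.mpr ⟨hx'.1.1, hx'.2.1.1⟩)
    rw [h3, Nat.cast_sum]
    refine sum_congr rfl fun a _ => ?_
    have h4 : (pr A S p).filter (fun x => red p x.1 = a) =
        (U.filter fun q => red p q = a) ×ˢ (U.filter fun q => red p q = a) := by
      ext x
      simp only [pr, hU, mem_filter, mem_product]
      constructor
      · rintro ⟨⟨⟨h1, h2⟩, ⟨h3, h4⟩, h5⟩, h6⟩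
        exact ⟨⟨⟨h1, h3⟩, h6⟩, ⟨h2, h4⟩, h5 ▸ h6⟩
      · rintro ⟨⟨⟨h1, h2⟩, h3⟩, ⟨h4, h5⟩, h6⟩
        exact ⟨⟨⟨h1, h4⟩, ⟨h2, h5⟩, h3.trans h6.symm⟩, h3⟩
    rw [h4, card_product]
    push_cast
    ring
  rw [h1, h2]
  exact sq_sum_le_card_mul_sum_sq

open Classical in
/-- The larger sieve. -/
theorem larger {P : Finset ℕ} (hP : ∀ p ∈ P, p.Prime) {A : ℕ → ℚ → Prop}
    (hA : ∀ p ∈ P, ∀ q, A p q → (q.den : ZMod p) ≠ 0) {S : Finset ℚ} {H : ℝ} (hH : 1 ≤ H)
    (hS : ∀ q ∈ S, ∀ q' ∈ S, |(q.num : ℝ)| * q'.den ≤ H) (M : ℕ → ℝ) (hM : ∀ p ∈ P, 0 < M p)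
    (hI : ∀ p ∈ P, (((S.filter (A p)).image (red p)).card : ℝ) ≤ M p) {V Λ : ℝ} (hV : 0 ≤ V)
    (hΛ : ∑ p ∈ P, Real.log p / M p ≤ Λ)
    (hSV : ∀ q ∈ S, V ≤ ∑ p ∈ P with A p q, Real.log p / M p) :
    (S.card : ℝ) * (V ^ 2 - Λ * Real.log (2 * H)) ≤ Λ * ∑ p ∈ P, Real.log p := by
  have hw0 : ∀ p ∈ P, 0 ≤ Real.log p / M p := fun p hp =>
    div_nonneg (Real.log_natCast_nonneg p) (hM p hp).le
  have hΛ0 : 0 ≤ Λ := (sum_nonneg hw0).trans hΛ
  have hΘ : 0 ≤ ∑ p ∈ P, Real.log p := sum_nonneg fun p _ => Real.log_natCast_nonneg p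
  rcases Nat.eq_zero_or_pos S.card with h0 | hpos
  · rw [h0]
    simp only [Nat.cast_zero, zero_mul]
    positivity
  have h1 : (S.card : ℝ) * V ≤ ∑ p ∈ P, Real.log p / M p * (S.filter (A p)).card := by
    calc (S.card : ℝ) * V = ∑ q ∈ S, V := by rw [sum_const, nsmul_eq_mul]
      _ ≤ ∑ q ∈ S, ∑ p ∈ P with A p q, Real.log p / M p := sum_le_sum hSV
      _ = ∑ q ∈ S, ∑ p ∈ P, if A p q then Real.log p / M p else 0 := by
          refine sum_congr rfl fun q _ => ?_
          rw [sum_filter]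
      _ = ∑ p ∈ P, ∑ q ∈ S, if A p q then Real.log p / M p else 0 := sum_comm
      _ = ∑ p ∈ P, Real.log p / M p * (S.filter (A p)).card := by
          refine sum_congr rfl fun p _ => ?_
          rw [← sum_filter, sum_const, nsmul_eq_mul]
          ring
  have h2 : (∑ p ∈ P, Real.log p / M p * (S.filter (A p)).card) ^ 2 ≤
      Λ * ∑ p ∈ P, Real.log p / M p * ((S.filter (A p)).card : ℝ) ^ 2 := by
    have h := sum_mul_sq_le_sq_mul_sq P (fun p => Real.sqrt (Real.log p / M p))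
      (fun p => Real.sqrt (Real.log p / M p) * (S.filter (A p)).card)
    have e1 : ∑ p ∈ P, Real.sqrt (Real.log p / M p) * (Real.sqrt (Real.log p / M p) *
        (S.filter (A p)).card) = ∑ p ∈ P, Real.log p / M p * (S.filter (A p)).card := by
      refine sum_congr rfl fun p hp => ?_
      rw [← mul_assoc, Real.mul_self_sqrt (hw0 p hp)]
    have e2 : ∑ p ∈ P, Real.sqrt (Real.log p / M p) ^ 2 = ∑ p ∈ P, Real.log p / M p := by
      refine sum_congr rfl fun p hp => ?_
      rw [Real.sq_sqrt (hw0 p hp)]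
    have e3 : ∑ p ∈ P, (Real.sqrt (Real.log p / M p) * (S.filter (A p)).card) ^ 2 =
        ∑ p ∈ P, Real.log p / M p * ((S.filter (A p)).card : ℝ) ^ 2 := by
      refine sum_congr rfl fun p hp => ?_
      rw [mul_pow, Real.sq_sqrt (hw0 p hp)]
    rw [e1, e2, e3] at h
    refine h.trans (mul_le_mul_of_nonneg_right hΛ ?_)
    exact sum_nonneg fun p hp => mul_nonneg (hw0 p hp) (sq_nonneg _)
  have h3 : ∀ p ∈ P, Real.log p / M p * ((S.filter (A p)).card : ℝ) ^ 2 ≤
      Real.log p * (pr A S p).card := by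
    intro p hp
    have hcs := cs A S p
    have hMp := hM p hp
    have hcard : (0 : ℝ) ≤ (pr A S p).card := Nat.cast_nonneg _
    calc Real.log p / M p * ((S.filter (A p)).card : ℝ) ^ 2
        ≤ Real.log p / M p * (M p * (pr A S p).card) := by
          refine mul_le_mul_of_nonneg_left (hcs.trans ?_) (hw0 p hp)
          exact mul_le_mul_of_nonneg_right (hI p hp) hcard
      _ = Real.log p * (pr A S p).card := by field_simp
  have h4 := pairs_le hP hA hH hS
  have h5 : ∑ p ∈ P, Real.log p / M p * ((S.filter (A p)).card : ℝ) ^ 2 ≤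
      (S.card : ℝ) ^ 2 * Real.log (2 * H) + S.card * ∑ p ∈ P, Real.log p :=
    (sum_le_sum h3).trans h4
  have hs0 : (0 : ℝ) < S.card := by exact_mod_cast hpos
  have h6 : ((S.card : ℝ) * V) ^ 2 ≤
      Λ * ((S.card : ℝ) ^ 2 * Real.log (2 * H) + S.card * ∑ p ∈ P, Real.log p) := by
    have h7 : ((S.card : ℝ) * V) ^ 2 ≤ (∑ p ∈ P, Real.log p / M p * (S.filter (A p)).card) ^ 2 :=
      pow_le_pow_left₀ (mul_nonneg (Nat.cast_nonneg _) hV) h1 2
    exact (h7.trans h2).trans (mul_le_mul_of_nonneg_left h5 hΛ0)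
  have h8 : (S.card : ℝ) * ((S.card : ℝ) * (V ^ 2 - Λ * Real.log (2 * H))) ≤
      S.card * (Λ * ∑ p ∈ P, Real.log p) := by
    linarith
  exact le_of_mul_le_mul_left h8 hs0

end Pool.Agent.U927.PC
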