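import Pool.Agent.U927.PC.ModP
import Pool.Agent.U927.PC.SV
import Pool.Agent.TH924.PC.Eig

set_option autoImplicit false

/-!
The number of parameters modulo `p` for which there is a full basis, in terms of the class of `p`
modulo the denominator of a difference of exponents.
-/

namespace Pool.Agent.U927.PC

open Polynomial
open Pool.Agent.W432.WB (FullMod)

variable {n d : ℕ} {p : ℕ} [hp : Fact p.Prime]

lemma hom_root {P : ℤ[X]} {n : ℕ} (hdeg : P.natDegree ≤ n) {e : ℚ} (he : aeval e P = 0) :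
    ∑ j ∈ Finset.range (n + 1), P.coeff j * (e.num ^ j * (e.den : ℤ) ^ (n - j)) = 0 := by
  have h1 : ((∑ j ∈ Finset.range (n + 1), P.coeff j * (e.num ^ j * (e.den : ℤ) ^ (n - j)) : ℤ) : ℚ) =
      (e.den : ℚ) ^ n * aeval e P := by
    rw [aeval_eq_sum_range' (Nat.lt_succ_of_le hdeg), Finset.mul_sum]
    push_cast
    refine Finset.sum_congr rfl fun j hj => ?_
    have hj' : j ≤ n := Nat.lt_succ_iff.mp (Finset.mem_range.mp hj)
    have hden : (e.den : ℚ) ≠ 0 := by exact_mod_cast e.den_nz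
    have h2 : (e.den : ℚ) ^ n = (e.den : ℚ) ^ (n - j) * (e.den : ℚ) ^ j := by
      rw [← pow_add, Nat.sub_add_cancel hj']
    have h3 : e * e.den = e.num := Rat.mul_den_eq_num e
    rw [zsmul_eq_mul, h2, ← h3, mul_pow]
    ring
  rw [he, mul_zero] at h1
  exact_mod_cast h1

lemma root_mod {P : ℤ[X]} {n : ℕ} (hdeg : P.natDegree ≤ n) (hc : ((P.coeff n : ℤ) : ZMod p) ≠ 0)
    {e : ℚ} (he : aeval e P = 0) :
    (e.den : ZMod p) ≠ 0 ∧ (P.map (Int.castRingHom (ZMod p))).eval (red p e) = 0 := by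
  have h1 := congrArg (fun z : ℤ => (z : ZMod p)) (hom_root hdeg he)
  simp only [Int.cast_sum, Int.cast_mul, Int.cast_pow, Int.cast_natCast, Int.cast_zero] at h1
  have hden : (e.den : ZMod p) ≠ 0 := by
    intro h0
    rw [Finset.sum_range_succ, Finset.sum_eq_zero, zero_add, Nat.sub_self, pow_zero, mul_one] at h1
    · have h2 : (e.num : ZMod p) ≠ 0 := by
        intro h2
        rw [ZMod.intCast_zmod_eq_zero_iff_dvd] at h2
        rw [ZMod.natCast_eq_zero_iff] at h0
        have := e.reduced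
        have h3 : p ∣ e.num.natAbs.gcd e.den :=
          Nat.dvd_gcd (Int.natCast_dvd.mp h2) h0
        rw [Nat.Coprime] at this
        rw [this] at h3
        exact hp.out.one_lt.ne' (Nat.dvd_one.mp h3)
      exact (mul_ne_zero hc (pow_ne_zero _ h2)) h1
    · intro j hj
      have : n - j ≠ 0 := by have := Finset.mem_range.mp hj; omega
      rw [h0, zero_pow this, mul_zero, mul_zero]
  refine ⟨hden, ?_⟩
  have h2 : (e.den : ZMod p) ^ n * (P.map (Int.castRingHom (ZMod p))).eval (red p e) = 0 := by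
    rw [← h1, eval_eq_sum_range' (Nat.lt_succ_of_le ((natDegree_map_le).trans hdeg)), Finset.mul_sum]
    refine Finset.sum_congr rfl fun j hj => ?_
    have hj' : j ≤ n := Nat.lt_succ_iff.mp (Finset.mem_range.mp hj)
    have h2 : (e.den : ZMod p) ^ n = (e.den : ZMod p) ^ (n - j) * (e.den : ZMod p) ^ j := by
      rw [← pow_add, Nat.sub_add_cancel hj']
    rw [coeff_map, eq_intCast, h2, red, mul_pow, inv_pow]
    field_simp
  exact (mul_eq_zero.mp h2).resolve_left (pow_ne_zero _ hden)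

/-- The polynomial `∑ a_i x(x-1)...(x-i+1)`. -/
noncomputable def ip (a : Fin (n + 1) → ℤ) : ℤ[X] := ∑ i : Fin (n + 1), C (a i) * descPochhammer ℤ i

lemma ip_deg_term (a : ℤ) (i : ℕ) : (C a * descPochhammer ℤ i).natDegree ≤ i :=
  (natDegree_C_mul_le _ _).trans (descPochhammer_natDegree ℤ i).le

lemma ip_deg (a : Fin (n + 1) → ℤ) : (ip a).natDegree ≤ n := by
  unfold ip
  refine natDegree_sum_le_of_forall_le _ _ fun i _ => ?_
  exact (ip_deg_term _ _).trans (Nat.lt_succ_iff.mp i.2)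

lemma ip_coeff (a : Fin (n + 1) → ℤ) : (ip a).coeff n = a (Fin.last n) := by
  unfold ip
  rw [finsetSum_coeff, Finset.sum_eq_single (Fin.last n)]
  · rw [coeff_C_mul, Fin.val_last]
    have h1 := monic_descPochhammer ℤ n
    rw [Monic, leadingCoeff, descPochhammer_natDegree] at h1
    rw [h1, mul_one]
  · intro i _ hi
    refine coeff_eq_zero_of_natDegree_lt ((ip_deg_term _ _).trans_lt ?_)
    have h1 : (i : ℕ) ≠ n := fun h => hi (Fin.ext (by simp [h]))
    have := i.2
    omega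
  · intro h0; exact absurd (Finset.mem_univ _) h0

lemma ip_aeval {R : Type*} [CommRing R] (a : Fin (n + 1) → ℤ) (x : R) :
    ((ip a).map (Int.castRingHom R)).eval x =
      ∑ i : Fin (n + 1), (a i : R) * (descPochhammer R i).eval x := by
  unfold ip
  rw [Polynomial.map_sum, eval_finsetSum]
  refine Finset.sum_congr rfl fun i _ => ?_
  rw [Polynomial.map_mul, map_C, descPochhammer_map, eval_mul, eval_C, eq_intCast]

variable {b : Fin d → Fin (n + 1) → ℤ[X]} {r : ℤ[X]}

theorem chi_root (hd : 1 ≤ d)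
    (hβ : (((b ⟨0, hd⟩ (Fin.last n)).coeff n : ℤ) : ZMod p) ≠ 0) {e : ℚ}
    (he : ∑ i : Fin (n + 1), ((b ⟨0, hd⟩ i).coeff i : ℚ) * (descPochhammer ℚ i).eval e = 0) :
    (e.den : ZMod p) ≠ 0 ∧ chi p b hd (red p e) = 0 := by
  have h1 := ip_aeval (fun i : Fin (n + 1) => (b ⟨0, hd⟩ i).coeff i) e
  rw [he, eval_map, ← algebraMap_int_eq, ← aeval_def] at h1
  have h2 := root_mod (p := p) (ip_deg _) (by rw [ip_coeff]; exact hβ) h1
  refine ⟨h2.1, ?_⟩
  rw [ip_aeval] at h2
  exact h2.2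

/-- The difference of the reductions of two exponents. -/
lemma diff_mod {e₁ e₂ : ℚ} (h₁ : (e₁.den : ZMod p) ≠ 0) (h₂ : (e₂.den : ZMod p) ≠ 0) :
    ((e₂ - e₁).den : ZMod p) ≠ 0 ∧ ((e₂ - e₁).den : ZMod p) * (red p e₂ - red p e₁) =
      ((e₂ - e₁).num : ZMod p) := by
  have h3 : (e₂ - e₁).num * ((e₁.den : ℤ) * e₂.den) =
      (e₂ - e₁).den * (e₂.num * e₁.den - e₁.num * e₂.den) := by
    have h4 : ((e₂ - e₁).num : ℚ) * ((e₁.den : ℚ) * e₂.den) =
        (e₂ - e₁).den * (e₂.num * e₁.den - e₁.num * e₂.den) := by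
      rw [← Rat.mul_den_eq_num (e₂ - e₁), ← Rat.mul_den_eq_num e₂, ← Rat.mul_den_eq_num e₁]
      ring
    exact_mod_cast h4
  have h5 := congrArg (fun z : ℤ => (z : ZMod p)) h3
  simp only [Int.cast_mul, Int.cast_natCast, Int.cast_sub] at h5
  have hden : ((e₂ - e₁).den : ZMod p) ≠ 0 := by
    intro h0
    rw [h0, zero_mul] at h5
    have h6 : ((e₂ - e₁).num : ZMod p) = 0 :=
      (mul_eq_zero.mp h5).resolve_right (mul_ne_zero h₁ h₂)
    rw [ZMod.intCast_zmod_eq_zero_iff_dvd] at h6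
    rw [ZMod.natCast_eq_zero_iff] at h0
    have := (e₂ - e₁).reduced
    have h7 : p ∣ (e₂ - e₁).num.natAbs.gcd (e₂ - e₁).den :=
      Nat.dvd_gcd (Int.natCast_dvd.mp h6) h0
    rw [Nat.Coprime] at this
    rw [this] at h7
    exact hp.out.one_lt.ne' (Nat.dvd_one.mp h7)
  refine ⟨hden, ?_⟩
  unfold red
  field_simp
  linear_combination -h5

/-- A full basis for `a / m` gives a full basis for every integer in the same class. -/
lemma fam_int {a m q : ℤ} (hm : (m : ZMod p) ≠ 0) (hq : (q : ZMod p) = (a : ZMod p) / m)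
    (h : FullMod (fam b r a m) p) : Pool.Agent.TH924.PC.FullMod n (Pool.Agent.TH924.PC.fam b r q) p := by
  obtain ⟨D, hD, y, hy, hind⟩ := h
  refine ⟨D, hD, y, fun j => ?_, hind⟩
  have haev : ∀ P : ℤ[X], Polynomial.aeval (RatFunc.X : RatFunc (ZMod p)) P =
      algebraMap (ZMod p)[X] (RatFunc (ZMod p)) (P.map (Int.castRingHom (ZMod p))) :=
    fun P => Pool.Agent.W432.WB.aeval_eq P
  have hmap : ∀ i : Fin (n + 1), (fam b r a m i).map (Int.castRingHom (ZMod p)) =
      C ((m : ZMod p) ^ d) * (Pool.Agent.TH924.PC.fam b r q i).map (Int.castRingHom (ZMod p)) := by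
    intro i
    unfold fam Pool.Agent.TH924.PC.fam
    rw [Polynomial.map_add, Polynomial.map_add, mul_add, Polynomial.map_sum, Polynomial.map_sum,
      Finset.mul_sum]
    congr 1
    · refine Finset.sum_congr rfl fun k _ => ?_
      rw [Polynomial.map_mul, Polynomial.map_mul, map_C, map_C, ← mul_assoc, ← C_mul]
      congr 2
      simp only [eq_intCast, Int.cast_mul, Int.cast_pow]
      rw [hq, div_pow]
      have h2 : (m : ZMod p) ^ d = (m : ZMod p) ^ (d - k) * (m : ZMod p) ^ (k : ℕ) := by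
        rw [← pow_add, Nat.sub_add_cancel k.2.le]
      rw [h2]
      field_simp
    · split_ifs
      · rw [Polynomial.map_mul, Polynomial.map_mul, map_C, map_C, ← mul_assoc, ← C_mul]
        congr 2
        simp only [eq_intCast, Int.cast_pow]
        rw [hq, div_pow]
        field_simp
      · simp
  have h1 := hy j
  have h2 : ∀ i : Fin (n + 1), Polynomial.aeval (RatFunc.X : RatFunc (ZMod p)) (fam b r a m i) =
      algebraMap (ZMod p)[X] (RatFunc (ZMod p)) (C ((m : ZMod p) ^ d)) *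
        Polynomial.aeval (RatFunc.X : RatFunc (ZMod p)) (Pool.Agent.TH924.PC.fam b r q i) := by
    intro i
    rw [haev, haev, hmap, map_mul]
  have h3 : algebraMap (ZMod p)[X] (RatFunc (ZMod p)) (C ((m : ZMod p) ^ d)) ≠ 0 := by
    have hinj : Function.Injective (algebraMap (ZMod p)[X] (RatFunc (ZMod p))) :=
      IsFractionRing.injective _ _
    rw [ne_eq, map_eq_zero_iff _ hinj]
    exact C_ne_zero.mpr (pow_ne_zero _ hm)
  refine (mul_eq_zero.mp ?_).resolve_left h3
  rw [Finset.mul_sum, ← h1]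
  refine Finset.sum_congr rfl fun i _ => ?_
  rw [h2, mul_assoc]

/-- The general bound. -/
theorem card_le_gen (hd : 1 ≤ d) (hr1 : ((r.coeff 1 : ℤ) : ZMod p) ≠ 0)
    (T : Finset (ZMod p)) (hT : ∀ t ∈ T, ∃ a m : ℤ, (m : ZMod p) ≠ 0 ∧ (a : ZMod p) / m = t ∧
      FullMod (fam b r a m) p) : T.card * n ≤ d * p := by
  refine Pool.Agent.TH924.PC.classes_le hd b r (fun h0 => hr1 ?_) T fun t ht => ?_
  · have := congrArg (fun q => coeff q 1) h0
    simpa using this
  · obtain ⟨a, m, hm, hat, hF⟩ := hT t ht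
    obtain ⟨q, hq⟩ := ZMod.intCast_surjective t
    exact ⟨q, hq, fam_int hm (by rw [hq, hat]) hF⟩

/-- The saving for the class `v` modulo `N`. -/
noncomputable def Gf (n d N v : ℕ) : ℝ :=
  max (max 1 ((n : ℝ) / d)) ((N : ℝ) / (d * (min v (N - v) : ℕ)))

lemma Gf_ge_one (n d N v : ℕ) : 1 ≤ Gf n d N v := (le_max_left _ _).trans (le_max_left _ _)

lemma Gf_le {n d N v : ℕ} (hd : 1 ≤ d) : Gf n d N v ≤ 1 + n + N := by
  have hd' : (1 : ℝ) ≤ d := by exact_mod_cast hd
  have hn : (0 : ℝ) ≤ n := Nat.cast_nonneg n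
  have hN : (0 : ℝ) ≤ N := Nat.cast_nonneg N
  unfold Gf
  refine max_le (max_le (by linarith) ?_) ?_
  · have : (n : ℝ) / d ≤ n := div_le_self hn hd'
    linarith
  · rcases Nat.eq_zero_or_pos (min v (N - v)) with h | h
    · rw [h]; simp; linarith
    · have h1 : (1 : ℝ) ≤ (min v (N - v) : ℕ) := by exact_mod_cast h
      have : (N : ℝ) / (d * (min v (N - v) : ℕ)) ≤ N := div_le_self hN (by nlinarith)
      linarith

/-- The class of `p` determines the gap between the two exponents modulo `p`. -/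
lemma gap {N : ℕ} (hN : 2 ≤ N) {u : ℤ} (hu : u.natAbs.Coprime N) {M : ℕ} (huM : |u| ≤ M)
    (hpM : M < p) (hpN : ¬ p ∣ N) {x : ZMod p} (hx : (N : ZMod p) * x = u) :
    0 < x.val ∧ (N : ℤ) * x.val = u + p * (-(u : ZMod N) * (p : ZMod N)⁻¹).val ∧
      (-(u : ZMod N) * (p : ZMod N)⁻¹).val < N := by
  have : NeZero N := ⟨by omega⟩
  have hcop : p.Coprime N := (Nat.Prime.coprime_iff_not_dvd hp.out).mpr hpN
  have hdvd : (p : ℤ) ∣ N * x.val - u := by
    rw [← ZMod.intCast_zmod_eq_zero_iff_dvd]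
    push_cast
    rw [ZMod.natCast_zmod_val, hx, sub_self]
  obtain ⟨w, hw⟩ := hdvd
  have hpp : (0 : ℤ) < p := by exact_mod_cast hp.out.pos
  have hNp : (2 : ℤ) ≤ N := by exact_mod_cast hN
  have hMp : (M : ℤ) < p := by exact_mod_cast hpM
  have hu1 := abs_le.mp huM
  have hxlt : (x.val : ℤ) < p := by exact_mod_cast ZMod.val_lt x
  have hx0 : (0 : ℤ) ≤ x.val := by positivity
  have hwN : (w : ZMod N) = -(u : ZMod N) * (p : ZMod N)⁻¹ := by
    have h1 := congrArg (fun z : ℤ => (z : ZMod N)) hw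
    simp only [Int.cast_sub, Int.cast_mul, Int.cast_natCast, ZMod.natCast_self, zero_mul,
      zero_sub] at h1
    rw [h1, mul_comm (p : ZMod N), mul_assoc, ZMod.coe_mul_inv_eq_one p hcop, mul_one]
  have hwne : (w : ZMod N) ≠ 0 := by
    intro h0
    have h1 := congrArg (fun z : ℤ => (z : ZMod N)) hw
    simp only [Int.cast_sub, Int.cast_mul, Int.cast_natCast, ZMod.natCast_self, zero_mul,
      zero_sub, h0, mul_zero, neg_eq_zero] at h1
    rw [ZMod.intCast_zmod_eq_zero_iff_dvd] at h1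
    have h2 : N ∣ u.natAbs := Int.natCast_dvd.mp h1
    have h3 : N ∣ u.natAbs.gcd N := Nat.dvd_gcd h2 dvd_rfl
    rw [Nat.Coprime] at hu
    rw [hu] at h3
    have := Nat.dvd_one.mp h3
    omega
  have hw0 : 0 < w := by
    have h1 : -1 < w := by
      by_contra h
      push Not at h
      have : (p : ℤ) * w ≤ p * (-1) := mul_le_mul_of_nonneg_left h hpp.le
      nlinarith
    have h2 : w ≠ 0 := by rintro rfl; simp at hwne
    omega
  have hwlt : w < N := by
    have h1 : w < N + 1 := by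
      by_contra h
      push Not at h
      have : (p : ℤ) * (N + 1) ≤ p * w := mul_le_mul_of_nonneg_left h hpp.le
      have h2 : (N : ℤ) * x.val ≤ N * (p - 1) := mul_le_mul_of_nonneg_left (by omega) (by omega)
      nlinarith
    have h2 : w ≠ N := by rintro rfl; simp at hwne
    omega
  have hval : ((-(u : ZMod N) * (p : ZMod N)⁻¹).val : ℤ) = w := by
    rw [← hwN, ZMod.val_intCast, Int.emod_eq_of_lt hw0.le hwlt]
  refine ⟨?_, ?_, ?_⟩
  · have h1 : 0 < (x.val : ℤ) := by
      by_contra h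
      push Not at h
      have hx00 : (x.val : ℤ) = 0 := by omega
      rw [hx00] at hw
      nlinarith
    exact_mod_cast h1
  · rw [hval]; linarith
  · have : ((-(u : ZMod N) * (p : ZMod N)⁻¹).val : ℤ) < N := by rw [hval]; exact hwlt
    exact_mod_cast this

theorem card_le_real (hd : 1 ≤ d) (h : Reg b r) (hr1 : ((r.coeff 1 : ℤ) : ZMod p) ≠ 0)
    (hβ : (((b ⟨0, hd⟩ (Fin.last n)).coeff n : ℤ) : ZMod p) ≠ 0) {e₁ e₂ : ℚ}
    (he₁ : ∑ i : Fin (n + 1), ((b ⟨0, hd⟩ i).coeff i : ℚ) * (descPochhammer ℚ i).eval e₁ = 0)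
    (he₂ : ∑ i : Fin (n + 1), ((b ⟨0, hd⟩ i).coeff i : ℚ) * (descPochhammer ℚ i).eval e₂ = 0)
    {N : ℕ} (hNe : (e₂ - e₁).den = N) (hN : 2 ≤ N) {u : ℤ} (hu : (e₂ - e₁).num = u) {M : ℕ}
    (huM : |u| ≤ M) (hpM : M < p) (T : Finset (ZMod p)) (hT : ∀ t ∈ T, ∃ a m : ℤ,
      (m : ZMod p) ≠ 0 ∧ (a : ZMod p) / m = t ∧ FullMod (fam b r a m) p) :
    (T.card : ℝ) ≤ p / Gf n d N (-(u : ZMod N) * (p : ZMod N)⁻¹).val + d * M / N := by
  obtain ⟨hd₁, hc₁⟩ := chi_root hd hβ he₁
  obtain ⟨hd₂, hc₂⟩ := chi_root hd hβ he₂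
  obtain ⟨hNp, hx⟩ := diff_mod hd₁ hd₂
  rw [hNe] at hNp hx
  rw [hu] at hx
  have hcop : u.natAbs.Coprime N := by rw [← hu, ← hNe]; exact (e₂ - e₁).reduced
  have hpN : ¬ p ∣ N := fun h0 => hNp ((ZMod.natCast_eq_zero_iff _ _).mpr h0)
  obtain ⟨hg0, hgw, hwN⟩ := gap hN hcop huM hpM hpN hx
  set g₀ := (red p e₂ - red p e₁).val with hg₀
  set w := (-(u : ZMod N) * (p : ZMod N)⁻¹).val with hw
  have hglt : g₀ < p := ZMod.val_lt _
  have hgcast : ((g₀ : ℕ) : ZMod p) = red p e₂ - red p e₁ := ZMod.natCast_zmod_val _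
  have h1 : T.card ≤ d * g₀ := by
    refine card_le hd h hr1 hβ hc₁ hg0 ?_ T hT
    rw [hgcast]
    convert hc₂ using 2
    ring
  have h2 : T.card ≤ d * (p - g₀) := by
    refine card_le hd h hr1 hβ hc₂ (by omega) ?_ T hT
    rw [Nat.cast_sub hglt.le, hgcast, ZMod.natCast_self]
    convert hc₁ using 2
    ring
  have h3 : T.card * n ≤ d * p := card_le_gen hd hr1 T hT
  have h4 : T.card ≤ p := by
    have := Finset.card_le_univ T
    rwa [ZMod.card] at this
  have hdR : (1 : ℝ) ≤ d := by exact_mod_cast hd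
  have hNR : (2 : ℝ) ≤ N := by exact_mod_cast hN
  have hMR : (0 : ℝ) ≤ M := Nat.cast_nonneg M
  have hpR : (0 : ℝ) < p := by exact_mod_cast hp.out.pos
  have hE : (0 : ℝ) ≤ d * M / N := by positivity
  have huR : |(u : ℝ)| ≤ M := by exact_mod_cast huM
  have huR' := abs_le.mp huR
  have hgR : (N : ℝ) * g₀ = u + p * w := by exact_mod_cast hgw
  have hwNR : (w : ℝ) ≤ N := by exact_mod_cast hwN.le
  have h5 : (T.card : ℝ) ≤ d * (M + p * w) / N := by
    rw [le_div_iff₀ (by linarith)]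
    have h1' : (T.card : ℝ) ≤ d * g₀ := by exact_mod_cast h1
    calc (T.card : ℝ) * N ≤ d * g₀ * N := by gcongr
      _ = d * (N * g₀) := by ring
      _ = d * (u + p * w) := by rw [hgR]
      _ ≤ d * (M + p * w) := by gcongr; exact huR'.2
  have h6 : (T.card : ℝ) ≤ d * (M + p * (N - w)) / N := by
    rw [le_div_iff₀ (by linarith)]
    have h2' : (T.card : ℝ) ≤ d * (p - g₀) := by
      have : ((p - g₀ : ℕ) : ℝ) = p - g₀ := by rw [Nat.cast_sub hglt.le]
      rw [← this]
      exact_mod_cast h2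
    calc (T.card : ℝ) * N ≤ d * (p - g₀) * N := by gcongr
      _ = d * (p * N - N * g₀) := by ring
      _ = d * (p * N - (u + p * w)) := by rw [hgR]
      _ ≤ d * (M + p * (N - w)) := by
        refine mul_le_mul_of_nonneg_left ?_ (by linarith)
        linarith [huR'.1]
  have h7 : (T.card : ℝ) ≤ d * (M + p * (min w (N - w) : ℕ)) / N := by
    rcases min_choice w (N - w) with hm | hm
    · rw [hm]; exact h5
    · rw [hm, Nat.cast_sub hwN.le]; exact h6
  have hw0 : 0 < w := by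
    rcases Nat.eq_zero_or_pos w with h0 | h0
    · exfalso
      rw [h0] at hgw
      have h8 : (N : ℤ) ∣ u := ⟨g₀, by push_cast at hgw; linarith⟩
      have h9 : N ∣ u.natAbs.gcd N := Nat.dvd_gcd (Int.natCast_dvd.mp h8) dvd_rfl
      rw [Nat.Coprime] at hcop
      rw [hcop] at h9
      have := Nat.dvd_one.mp h9
      omega
    · exact h0
  have hmin : 0 < min w (N - w) := by
    rw [lt_min_iff]; omega
  have hminR : (0 : ℝ) < (min w (N - w) : ℕ) := by exact_mod_cast hmin
  unfold Gf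
  rcases max_choice (max 1 ((n : ℝ) / d)) ((N : ℝ) / (d * (min w (N - w) : ℕ))) with hm | hm
  · rw [hm]
    rcases max_choice 1 ((n : ℝ) / d) with hm' | hm'
    · rw [hm', div_one]
      have : (T.card : ℝ) ≤ p := by exact_mod_cast h4
      linarith
    · have h8 : (1 : ℝ) ≤ n / d := by rw [← hm']; exact le_max_left _ _
      rw [hm']
      have h9 : (0 : ℝ) < n := by
        by_contra h0
        push Not at h0
        have : (n : ℝ) / d ≤ 0 := div_nonpos_of_nonpos_of_nonneg h0 (by linarith)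
        linarith
      have h10 : (T.card : ℝ) ≤ p / (n / d) := by
        rw [div_div_eq_mul_div, le_div_iff₀ h9, mul_comm (p : ℝ)]
        exact_mod_cast h3
      linarith
  · rw [hm]
    refine h7.trans_eq ?_
    have hd0 : (d : ℝ) ≠ 0 := by linarith
    have hN0 : (N : ℝ) ≠ 0 := by linarith
    field_simp
    ring

end Pool.Agent.U927.PC
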