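import Pool.Agent.U927.PC.WS
import Pool.Agent.U927.PC.CT

set_option autoImplicit false

/-!
The average saving is at least `(2 / d) log (N / 2)`.
-/

namespace Pool.Agent.U927.PC

open Finset

/-- The sum of `1 / k` over the `k ≤ x` divisible by no element of `Q`. -/
noncomputable def Fh (Q : Finset ℕ) (x : ℕ) : ℝ :=
  ∑ k ∈ Icc 1 x with ∀ q ∈ Q, ¬ q ∣ k, (1 : ℝ) / k

lemma Fh_nonneg (Q : Finset ℕ) (x : ℕ) : 0 ≤ Fh Q x := sum_nonneg fun _ _ => by positivity

lemma Fh_insert {Q : Finset ℕ} {q x : ℕ} (hq : 0 < q) :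
    (1 - (q : ℝ)⁻¹) * Fh Q x ≤ Fh (insert q Q) x := by
  classical
  have h1 : Fh Q x = Fh (insert q Q) x +
      ∑ k ∈ Icc 1 x with (∀ q' ∈ Q, ¬ q' ∣ k) ∧ q ∣ k, (1 : ℝ) / k := by
    unfold Fh
    have h2 := sum_filter_add_sum_filter_not ((Icc 1 x).filter fun k => ∀ q' ∈ Q, ¬ q' ∣ k)
      (fun k => ¬ q ∣ k) (fun k => (1 : ℝ) / k)
    rw [← h2, filter_filter, filter_filter]
    congr 1
    · refine sum_congr ?_ fun _ _ => rfl
      ext k
      simp only [mem_filter, mem_insert, forall_eq_or_imp]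
      tauto
    · refine sum_congr ?_ fun _ _ => rfl
      ext k
      simp only [mem_filter, not_not]
  have h3 : ∑ k ∈ Icc 1 x with (∀ q' ∈ Q, ¬ q' ∣ k) ∧ q ∣ k, (1 : ℝ) / k ≤ (q : ℝ)⁻¹ * Fh Q x := by
    unfold Fh
    rw [mul_sum]
    have hqR : (0 : ℝ) < q := by exact_mod_cast hq
    calc ∑ k ∈ Icc 1 x with (∀ q' ∈ Q, ¬ q' ∣ k) ∧ q ∣ k, (1 : ℝ) / k
        = ∑ k ∈ Icc 1 x with (∀ q' ∈ Q, ¬ q' ∣ k) ∧ q ∣ k, (q : ℝ)⁻¹ * (1 / ((k / q : ℕ) : ℝ)) := by
          refine sum_congr rfl fun k hk => ?_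
          rw [mem_filter, mem_Icc] at hk
          obtain ⟨⟨hk1, hk2⟩, hk3, c, rfl⟩ := hk
          rw [Nat.mul_div_cancel_left c hq]
          push_cast
          have hc : (c : ℝ) ≠ 0 := by
            intro h0
            have : c = 0 := by exact_mod_cast h0
            subst this
            omega
          field_simp
      _ = ∑ j ∈ ((Icc 1 x).filter fun k => (∀ q' ∈ Q, ¬ q' ∣ k) ∧ q ∣ k).image (· / q),
            (q : ℝ)⁻¹ * (1 / (j : ℝ)) := by
          rw [sum_image]
          intro k hk k' hk' hkk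
          simp only [coe_filter, Set.mem_ofPred_eq] at hk hk'
          obtain ⟨-, -, c, rfl⟩ := hk
          obtain ⟨-, -, c', rfl⟩ := hk'
          simp only [Nat.mul_div_cancel_left _ hq] at hkk
          rw [hkk]
      _ ≤ ∑ j ∈ Icc 1 x with ∀ q ∈ Q, ¬ q ∣ j, (q : ℝ)⁻¹ * (1 / (j : ℝ)) := by
          refine sum_le_sum_of_subset_of_nonneg ?_ fun _ _ _ => by positivity
          intro j hj
          rw [mem_image] at hj
          obtain ⟨k, hk, rfl⟩ := hj
          rw [mem_filter, mem_Icc] at hk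
          obtain ⟨⟨hk1, hk2⟩, hk3, c, rfl⟩ := hk
          rw [Nat.mul_div_cancel_left c hq, mem_filter, mem_Icc]
          refine ⟨⟨?_, ?_⟩, fun q' hq' hd => hk3 q' hq' (hd.mul_left _)⟩
          · rcases Nat.eq_zero_or_pos c with h0 | h0
            · subst h0; omega
            · exact h0
          · exact (Nat.le_mul_of_pos_left c hq).trans hk2
  nlinarith

lemma Fh_prod (Q : Finset ℕ) (hQ : ∀ q ∈ Q, 0 < q) (x : ℕ) :
    (∏ q ∈ Q, (1 - (q : ℝ)⁻¹)) * Fh ∅ x ≤ Fh Q x := by
  classical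
  induction Q using Finset.induction_on with
  | empty => simp
  | insert q Q hq ih =>
    have h1 := Fh_insert (Q := Q) (x := x) (hQ q (mem_insert_self q Q))
    have h2 := ih fun q' hq' => hQ q' (mem_insert_of_mem hq')
    rw [prod_insert hq, mul_assoc]
    refine le_trans ?_ h1
    refine mul_le_mul_of_nonneg_left h2 ?_
    have : (1 : ℝ) ≤ q := by exact_mod_cast hQ q (mem_insert_self q Q)
    have := inv_le_one_of_one_le₀ this
    linarith

lemma Fh_empty (x : ℕ) : Real.log (x + 1) ≤ Fh ∅ x := by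
  have h1 := log_add_one_le_harmonic x
  have h2 : (harmonic x : ℝ) = Fh ∅ x := by
    rw [harmonic_eq_sum_Icc]
    unfold Fh
    push_cast
    simp
  push_cast at h1
  linarith

lemma Fh_primes {N : ℕ} (hN : 0 < N) (x : ℕ) :
    Fh N.primeFactors x = ∑ k ∈ Icc 1 x with N.Coprime k, (1 : ℝ) / k := by
  unfold Fh
  refine sum_congr ?_ fun _ _ => rfl
  ext k
  simp only [mem_filter, and_congr_right_iff, mem_Icc]
  intro hk
  constructor
  · intro h
    refine Nat.coprime_of_dvd fun q hq hqN hqk => ?_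
    exact h q (Nat.mem_primeFactors.mpr ⟨hq, hqN, hN.ne'⟩) hqk
  · intro h q hq hd
    have h1 := Nat.dvd_gcd (Nat.dvd_of_mem_primeFactors hq) hd
    rw [Nat.Coprime] at h
    rw [h] at h1
    exact (Nat.prime_of_mem_primeFactors hq).one_lt.ne' (Nat.dvd_one.mp h1)

lemma tot_log {N : ℕ} (hN : 0 < N) (x : ℕ) :
    N.totient * Real.log (x + 1) ≤ N * ∑ k ∈ Icc 1 x with N.Coprime k, (1 : ℝ) / k := by
  have h1 : (N.totient : ℝ) = N * ∏ q ∈ N.primeFactors, (1 - (q : ℝ)⁻¹) := by
    have := Nat.totient_eq_mul_prod_factors N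
    have h2 : ((N.totient : ℚ) : ℝ) = ((N * ∏ q ∈ N.primeFactors, (1 - (q : ℚ)⁻¹) : ℚ) : ℝ) := by
      rw [this]
    push_cast at h2
    exact h2
  have h3 := Fh_prod N.primeFactors (fun q hq => (Nat.prime_of_mem_primeFactors hq).pos) x
  rw [Fh_primes hN] at h3
  have hP : 0 ≤ ∏ q ∈ N.primeFactors, (1 - (q : ℝ)⁻¹) := by
    refine prod_nonneg fun q hq => ?_
    have : (1 : ℝ) ≤ q := by exact_mod_cast (Nat.prime_of_mem_primeFactors hq).pos
    have := inv_le_one_of_one_le₀ this
    linarith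
  rw [h1, mul_assoc]
  refine mul_le_mul_of_nonneg_left ?_ (Nat.cast_nonneg N)
  exact (mul_le_mul_of_nonneg_left (Fh_empty x) hP).trans h3

/-- The average saving grows like `(2 / d) log N`. -/
theorem avg_ge (n : ℕ) {d N : ℕ} (hd : 1 ≤ d) (hN : 3 ≤ N) :
    2 / d * Real.log (N / 2) ≤ avg N (Gf n d N) := by
  have hdR : (0 : ℝ) < d := by exact_mod_cast hd
  have hNR : (0 : ℝ) < N := by exact_mod_cast (by omega : 0 < N)
  have hφ : (0 : ℝ) < N.totient := by exact_mod_cast Nat.totient_pos.mpr (by omega : 0 < N)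
  set x := (N - 1) / 2 with hx
  have h1 := tot_log (by omega : 0 < N) x
  set S := ∑ k ∈ Icc 1 x with N.Coprime k, (1 : ℝ) / k with hS
  -- the two halves
  have h2 : 2 * ((N : ℝ) / d * S) ≤ ∑ v ∈ range N with N.Coprime v, Gf n d N v := by
    set A := (Icc 1 x).filter fun k => N.Coprime k with hA
    have hAmem : ∀ k ∈ A, 1 ≤ k ∧ 2 * k < N ∧ N.Coprime k := by
      intro k hk
      rw [hA, mem_filter, mem_Icc] at hk
      refine ⟨hk.1.1, ?_, hk.2⟩
      have : k ≤ (N - 1) / 2 := hk.1.2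
      omega
    have hdisj : Disjoint A (A.image fun k => N - k) := by
      rw [Finset.disjoint_left]
      intro k hk hk'
      rw [mem_image] at hk'
      obtain ⟨j, hj, hjk⟩ := hk'
      have := hAmem k hk
      have := hAmem j hj
      omega
    have hsub : A ∪ A.image (fun k => N - k) ⊆ (range N).filter fun v => N.Coprime v := by
      intro v hv
      rw [mem_union, mem_image] at hv
      rw [mem_filter, mem_range]
      rcases hv with hv | ⟨j, hj, rfl⟩
      · have := hAmem v hv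
        exact ⟨by omega, this.2.2⟩
      · have := hAmem j hj
        refine ⟨by omega, ?_⟩
        rw [Nat.coprime_self_sub_right (by omega)]
        exact this.2.2
    refine le_trans ?_ (sum_le_sum_of_subset_of_nonneg hsub fun v _ _ =>
      zero_le_one.trans (Gf_ge_one n d N v))
    rw [sum_union hdisj, sum_image (by
      intro j hj k hk hjk
      have := hAmem j hj
      have := hAmem k hk
      simp only at hjk
      omega), two_mul, hS, mul_sum]
    refine add_le_add (sum_le_sum fun k hk => ?_) (sum_le_sum fun k hk => ?_)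
    · have := hAmem k hk
      refine le_trans (le_of_eq ?_) (le_max_right _ _)
      rw [min_eq_left (by omega)]
      rw [div_mul_div_comm, mul_one]
    · have := hAmem k hk
      refine le_trans (le_of_eq ?_) (le_max_right _ _)
      rw [min_eq_right (by omega), Nat.sub_sub_self (by omega)]
      rw [div_mul_div_comm, mul_one]
  unfold avg
  rw [le_div_iff₀ hφ]
  refine le_trans ?_ h2
  have h3 : Real.log (N / 2) ≤ Real.log (x + 1) := by
    refine Real.log_le_log (by positivity) ?_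
    have h4 : N ≤ 2 * (x + 1) := by omega
    have h5 : (N : ℝ) ≤ 2 * (x + 1) := by exact_mod_cast h4
    linarith
  calc 2 / d * Real.log (N / 2) * N.totient ≤ 2 / d * Real.log (x + 1) * N.totient := by gcongr
    _ = 2 / d * (N.totient * Real.log (x + 1)) := by ring
    _ ≤ 2 / d * (N * S) := by gcongr
    _ = 2 * (N / d * S) := by ring

end Pool.Agent.U927.PC
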