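import Pool.Agent.U927.PC.WS
import Pool.Agent.U927.PC.SV

set_option autoImplicit false

/-!
The larger sieve with savings depending on the class of the prime: asymptotic form.
-/

namespace Pool.Agent.U927.PC

open Finset

lemma theta_le' (N : ℕ) : ∑ p ∈ Icc 1 N with p.Prime, Real.log p ≤ 2 * N := by
  have h := Chebyshev.theta_le_log4_mul_x (x := (N : ℝ)) (by positivity)
  have h2 : Chebyshev.theta (N : ℝ) = ∑ p ∈ Icc 1 N with p.Prime, Real.log p := by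
    rw [Chebyshev.theta, Nat.floor_natCast]
    rfl
  rw [← h2]
  have h4 : Real.log 4 ≤ 2 := by
    have : Real.log 4 = 2 * Real.log 2 := by
      rw [show (4 : ℝ) = 2 ^ 2 by norm_num, Real.log_pow]; norm_num
    have := Real.log_two_lt_d9
    linarith
  have hN : (0 : ℝ) ≤ N := Nat.cast_nonneg N
  nlinarith

/-- The rational numbers with numerator at most `X` and denominator at most `Z`. -/
def box (X Z : ℝ) : Set ℚ := {q | |(q.num : ℝ)| ≤ X ∧ (q.den : ℝ) ≤ Z}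

lemma box_finite {X Z : ℝ} : (box X Z).Finite := by
  have h : Set.InjOn (fun q : ℚ => (q.num, q.den)) (box X Z) := by
    intro q _ q' _ h
    simp only [Prod.mk.injEq] at h
    exact Rat.ext h.1 h.2
  refine Set.Finite.of_finite_image (Set.Finite.subset
    (s := ((Icc (-⌊X⌋) ⌊X⌋ ×ˢ Icc 0 ⌊Z⌋₊ : Finset (ℤ × ℕ)) : Set (ℤ × ℕ))) (Finset.finite_toSet _) ?_) h
  rintro _ ⟨q, hq, rfl⟩
  simp only [coe_product, coe_Icc, Set.mem_prod, Set.mem_Icc]
  refine ⟨⟨?_, ?_⟩, Nat.zero_le _, Nat.le_floor hq.2⟩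
  · have := (abs_le.mp hq.1).1
    have h2 : (-q.num : ℤ) ≤ ⌊X⌋ := Int.le_floor.mpr (by push_cast; linarith)
    linarith
  · exact Int.le_floor.mpr (abs_le.mp hq.1).2

lemma box_card {X Z : ℝ} (hX : 1 ≤ X) (hZ : 1 ≤ Z) : ((box X Z).ncard : ℝ) ≤ 3 * (X * Z) := by
  have h : Set.InjOn (fun q : ℚ => (q.num, q.den)) (box X Z) := by
    intro q _ q' _ h
    simp only [Prod.mk.injEq] at h
    exact Rat.ext h.1 h.2
  have h1 : (box X Z).ncard ≤ (Icc (-⌊X⌋) ⌊X⌋ ×ˢ Icc 1 ⌊Z⌋₊ : Finset (ℤ × ℕ)).card := by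
    rw [← Set.ncard_coe_finset]
    refine Set.ncard_le_ncard_of_injOn _ ?_ h (Finset.finite_toSet _)
    intro q hq
    simp only [coe_product, coe_Icc, Set.mem_prod, Set.mem_Icc]
    refine ⟨⟨?_, ?_⟩, q.den_pos, Nat.le_floor hq.2⟩
    · have := (abs_le.mp hq.1).1
      have h2 : (-q.num : ℤ) ≤ ⌊X⌋ := Int.le_floor.mpr (by push_cast; linarith)
      linarith
    · exact Int.le_floor.mpr (abs_le.mp hq.1).2
  rw [card_product, Int.card_Icc, Nat.card_Icc] at h1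
  have h2 : ((box X Z).ncard : ℝ) ≤ ((⌊X⌋ + 1 - -⌊X⌋).toNat : ℝ) * ((⌊Z⌋₊ + 1 - 1 : ℕ) : ℝ) := by
    exact_mod_cast h1
  have hfX : (0 : ℤ) ≤ ⌊X⌋ := Int.floor_nonneg.mpr (by linarith)
  have h3 : ((⌊X⌋ + 1 - -⌊X⌋).toNat : ℝ) ≤ 3 * X := by
    have h4 : (((⌊X⌋ + 1 - -⌊X⌋).toNat : ℤ) : ℝ) = 2 * ⌊X⌋ + 1 := by
      rw [Int.toNat_of_nonneg (by omega)]
      push_cast; ring
    have h5 := Int.floor_le X
    have h6 : ((⌊X⌋ + 1 - -⌊X⌋).toNat : ℝ) = 2 * ⌊X⌋ + 1 := by exact_mod_cast h4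
    linarith
  have h4 : ((⌊Z⌋₊ + 1 - 1 : ℕ) : ℝ) ≤ Z := by
    rw [Nat.add_sub_cancel]
    exact Nat.floor_le (by linarith)
  calc ((box X Z).ncard : ℝ) ≤ _ := h2
    _ ≤ 3 * X * Z := mul_le_mul h3 h4 (Nat.cast_nonneg _) (by linarith)
    _ = 3 * (X * Z) := by ring

lemma key_ineq {D L c₂ c₃ b₁ b₂ κ l : ℝ} (hκ1 : 0 < 1 + κ) (hD0 : 0 < D)
    (hD : D = b₁ ^ 2 - (1 + κ) * b₂) (hc₃ : c₃ = 2 * b₁ * c₂ + (1 + κ) * b₂ * l)
    (hL0 : 0 ≤ L) (hLc3 : 2 * c₃ / D ≤ L) : D / 2 * L ^ 2 / (1 + κ) ^ 2 ≤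
      ((b₁ * L - c₂) / (1 + κ)) ^ 2 - b₂ * L / (1 + κ) * (l + L) := by
  have h1 : ((b₁ * L - c₂) / (1 + κ)) ^ 2 - b₂ * L / (1 + κ) * (l + L) =
      (D * L ^ 2 - c₃ * L + c₂ ^ 2) / (1 + κ) ^ 2 := by
    rw [hD, hc₃]
    have h0 : 1 + κ ≠ 0 := hκ1.ne'
    field_simp
    ring
  rw [h1]
  refine div_le_div_of_nonneg_right ?_ (by positivity)
  rw [div_le_iff₀ hD0] at hLc3
  have h2 := mul_le_mul_of_nonneg_right hLc3 hL0
  have h3 := sq_nonneg c₂
  linarith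

lemma fin_ineq {D L b₂ κ s h : ℝ} (hκ1 : 0 < 1 + κ) (hD0 : 0 < D) (hL0 : 0 < L)
    (h1 : s * (D / 2 * L ^ 2 / (1 + κ) ^ 2) ≤ b₂ * L / (1 + κ) * (2 * h)) :
    s * L ≤ 4 * b₂ * (1 + κ) / D * h := by
  have h3 : s * (D / 2 * L ^ 2 / (1 + κ) ^ 2) = (s * L) * (D * L / (2 * (1 + κ) ^ 2)) := by
    field_simp
  have h4 : b₂ * L / (1 + κ) * (2 * h) =
      (4 * b₂ * (1 + κ) / D * h) * (D * L / (2 * (1 + κ) ^ 2)) := by
    field_simp
    ring
  rw [h3, h4] at h1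
  exact le_of_mul_le_mul_right h1 (by positivity)

open Classical in
theorem core {N : ℕ} [NeZero N] {f : ℕ → ℝ} {G : ℝ} (hf1 : ∀ v, 1 ≤ f v) (hfG : ∀ v, f v ≤ G)
    {θ : ℝ} (hθ0 : 0 < θ) (hθ : 1 < avg N f * θ) :
    ∃ η : ℝ, 0 < η ∧ ∀ (P₁ : ℕ) (E : ℝ), ∃ C : ℝ, ∀ (A : ℕ → ℚ → Prop) (u : (ZMod N)ˣ),
      (∀ p : ℕ, p.Prime → P₁ < p → (∀ q, A p q → (q.den : ZMod p) ≠ 0) ∧
        ∀ T : Finset (ZMod p), (∀ t ∈ T, ∃ q, A p q ∧ red p q = t) →
          (T.card : ℝ) ≤ p / f ((u : ZMod N) * (p : ZMod N)⁻¹).val + E) →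
      ∀ X Z : ℝ, 1 ≤ X → 1 ≤ Z → 2 ≤ X * Z →
        (Set.ncard {q : ℚ | |(q.num : ℝ)| ≤ X ∧ (q.den : ℝ) ≤ Z ∧
          ∑ p ∈ Icc 1 ⌊(X * Z) ^ θ⌋₊ with p.Prime ∧ ¬ A p q, Real.log p / p ≤
            η * Real.log (X * Z)} : ℝ) ≤ C * (X * Z) ^ θ := by
  set a := avg N f * θ with ha
  have hG1 : 1 ≤ G := (hf1 0).trans (hfG 0)
  have ha0 : 0 < a := by linarith
  set κ : ℝ := a * (a - 1) / (2 * (5 * a + 1)) with hκ
  have hκ0 : 0 < κ := div_pos (mul_pos ha0 (by linarith)) (by linarith)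
  have hκa : κ * (5 * a + 1) = a * (a - 1) / 2 := by
    rw [hκ]; field_simp
  set b₁ := a - 2 * κ with hb₁
  set b₂ := a + κ with hb₂
  have hb1 : 0 < b₁ := by
    have h1 : κ * (5 * a + 1) < (a / 2) * (5 * a + 1) := by rw [hκa]; nlinarith
    have := lt_of_mul_lt_mul_right h1 (by linarith)
    linarith
  have hb2 : 0 < b₂ := by linarith
  set D := b₁ ^ 2 - (1 + κ) * b₂ with hD
  have hD0 : 0 < D := by
    have : D = a * (a - 1) - κ * (5 * a + 1) + 3 * κ ^ 2 := by rw [hD, hb₁, hb₂]; ring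
    rw [this, hκa]
    nlinarith [mul_pos ha0 (by linarith : 0 < a - 1), sq_nonneg κ]
  refine ⟨κ / G, by positivity, fun P₁ E => ?_⟩
  obtain ⟨Y₀, hY₀⟩ := ws (N := N) f (δ := κ / θ) (by positivity)
  set P₂ : ℕ := max (max P₁ N) ⌈|E| * G / κ⌉₊ with hP₂
  set B : ℝ := ∑ k ∈ Icc 1 P₂, Real.log k / k with hB
  have hB0 : 0 ≤ B := sum_nonneg fun k _ => div_nonneg (Real.log_natCast_nonneg k) (Nat.cast_nonneg k)
  set c₂ : ℝ := (avg N f) * Real.log 2 + G * B with hc₂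
  have havg : 0 < avg N f := by
    by_contra h
    push Not at h
    have : avg N f * θ ≤ 0 := mul_nonpos_of_nonpos_of_nonneg h hθ0.le
    linarith
  have hlog20 : 0 < Real.log 2 := Real.log_pos (by norm_num)
  have hc20 : 0 ≤ c₂ := by positivity
  set c₃ : ℝ := 2 * b₁ * c₂ + (1 + κ) * b₂ * Real.log 2 with hc₃
  have hc30 : 0 ≤ c₃ := by positivity
  set L₀ : ℝ := max (max 1 (2 * c₃ / D)) (max (c₂ / b₁) (Real.log (Y₀ + 1) / θ)) with hL₀
  refine ⟨max (3 * Real.exp L₀) (4 * b₂ * (1 + κ) / D), fun A u hA X Z hX hZ hXZ => ?_⟩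
  set H := X * Z with hH
  have hH0 : 0 < H := by linarith
  have hH1 : 1 ≤ H := by linarith
  set L := Real.log H with hL
  have hHθ : 1 ≤ H ^ θ := Real.one_le_rpow hH1 hθ0.le
  set n := ⌊H ^ θ⌋₊ with hn
  set 𝒮 : Set ℚ := {q : ℚ | |(q.num : ℝ)| ≤ X ∧ (q.den : ℝ) ≤ Z ∧
      ∑ p ∈ Icc 1 n with p.Prime ∧ ¬ A p q, Real.log p / p ≤ κ / G * L} with h𝒮
  have hsub : 𝒮 ⊆ box X Z := fun q hq => ⟨hq.1, hq.2.1⟩
  have hfin : 𝒮.Finite := box_finite.subset hsub
  rcases lt_or_ge L L₀ with hsmall | hlarge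
  · have h1 : (𝒮.ncard : ℝ) ≤ (box X Z).ncard := by
      exact_mod_cast Set.ncard_le_ncard hsub box_finite
    have h2 : H ≤ Real.exp L₀ := by
      rw [← Real.exp_log hH0]
      exact Real.exp_le_exp.mpr hsmall.le
    calc (𝒮.ncard : ℝ) ≤ 3 * H := h1.trans (box_card hX hZ)
      _ ≤ 3 * Real.exp L₀ := by linarith
      _ ≤ max (3 * Real.exp L₀) (4 * b₂ * (1 + κ) / D) := le_max_left _ _
      _ ≤ _ := le_mul_of_one_le_right (le_trans (by positivity) (le_max_left _ _)) hHθ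
  have hL1 : 1 ≤ L := (le_max_left _ _).trans ((le_max_left _ _).trans hlarge)
  have hLc3 : 2 * c₃ / D ≤ L := (le_max_right _ _).trans ((le_max_left _ _).trans hlarge)
  have hLc2 : c₂ / b₁ ≤ L := (le_max_left _ _).trans ((le_max_right _ _).trans hlarge)
  have hLY : Real.log (Y₀ + 1) / θ ≤ L := (le_max_right _ _).trans ((le_max_right _ _).trans hlarge)
  have hθL : θ * L = Real.log (H ^ θ) := by rw [Real.log_rpow hH0]
  have hnY : Y₀ ≤ n := by
    rw [hn]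
    refine Nat.le_floor ?_
    have h1 : Real.log (Y₀ + 1) ≤ Real.log (H ^ θ) := by
      rw [← hθL]
      rw [div_le_iff₀ hθ0] at hLY
      linarith
    have h2 := (Real.log_le_log_iff (by positivity) (by positivity)).mp h1
    linarith
  have hnle : (n : ℝ) ≤ H ^ θ := Nat.floor_le (by positivity)
  have hn1 : 1 ≤ n := Nat.le_floor (by simpa using hHθ)
  have hnge : H ^ θ / 2 ≤ n := by
    have h1 := Nat.lt_floor_add_one (H ^ θ)
    have h2 : (1 : ℝ) ≤ n := by exact_mod_cast hn1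
    rw [← hn] at h1
    linarith
  have hn0 : (0 : ℝ) < n := by exact_mod_cast hn1
  have hlogn1 : Real.log n ≤ θ * L := by
    rw [hθL]; exact Real.log_le_log hn0 hnle
  have hlogn2 : θ * L - Real.log 2 ≤ Real.log n := by
    rw [hθL, ← Real.log_div (by positivity) (by norm_num)]
    exact Real.log_le_log (by positivity) hnge
  have hlogn0 : 0 ≤ Real.log n := Real.log_natCast_nonneg n
  have hW := abs_le.mp (hY₀ u n hnY)
  set F : ℕ → ℝ := fun p => f ((u : ZMod N) * (p : ZMod N)⁻¹).val with hF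
  have hF1 : ∀ p, 1 ≤ F p := fun p => hf1 _
  have hFG : ∀ p, F p ≤ G := fun p => hfG _
  set W := ∑ p ∈ Icc 1 n with p.Prime ∧ ¬ p ∣ N, F p * (Real.log p / p) with hWdef
  have hW1 : W ≤ avg N f * Real.log n + κ / θ * Real.log n := by
    have := hW.2
    simp only [hWdef, hF]
    linarith
  have hW2 : avg N f * Real.log n - κ / θ * Real.log n ≤ W := by
    have := hW.1
    simp only [hWdef, hF]
    linarith
  set P := (Icc 1 n).filter (fun p => p.Prime ∧ P₂ < p) with hPdef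
  have hPmem : ∀ p ∈ P, p.Prime ∧ P₁ < p ∧ N < p ∧ |E| * G / κ ≤ p ∧ 1 ≤ p ∧ p ≤ n := by
    intro p hp
    rw [hPdef, mem_filter, mem_Icc] at hp
    have h1 : P₁ ≤ P₂ := (le_max_left _ _).trans (le_max_left _ _)
    have h2 : N ≤ P₂ := (le_max_right _ _).trans (le_max_left _ _)
    have h3 : ⌈|E| * G / κ⌉₊ ≤ P₂ := le_max_right _ _
    refine ⟨hp.2.1, by omega, by omega, ?_, hp.1.1, hp.1.2⟩
    refine (Nat.le_ceil _).trans ?_
    exact_mod_cast h3.trans hp.2.2.le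
  have hNpos : 0 < N := NeZero.pos N
  have hlp0 : ∀ p : ℕ, 0 ≤ Real.log p / p := fun p =>
    div_nonneg (Real.log_natCast_nonneg p) (Nat.cast_nonneg p)
  have hFl0 : ∀ p : ℕ, 0 ≤ F p * (Real.log p / p) := fun p =>
    mul_nonneg (by linarith [hF1 p]) (hlp0 p)
  have hPW : ∑ p ∈ P, F p * (Real.log p / p) ≤ W := by
    refine sum_le_sum_of_subset_of_nonneg ?_ fun p _ _ => hFl0 p
    intro p hp
    have h := hPmem p hp
    rw [mem_filter, mem_Icc]
    exact ⟨⟨h.2.2.2.2.1, h.2.2.2.2.2⟩, h.1, fun hd => by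
      have := Nat.le_of_dvd hNpos hd
      omega⟩
  have hWP : W ≤ ∑ p ∈ P, F p * (Real.log p / p) + G * B := by
    have h1 : (Icc 1 n).filter (fun p => p.Prime ∧ ¬ p ∣ N) ⊆ P ∪ Icc 1 P₂ := by
      intro p hp
      rw [mem_filter, mem_Icc] at hp
      rw [mem_union, hPdef, mem_filter, mem_Icc, mem_Icc]
      rcases Nat.lt_or_ge P₂ p with h | h
      · exact Or.inl ⟨hp.1, hp.2.1, h⟩
      · exact Or.inr ⟨hp.1.1, h⟩
    have h2 : W ≤ ∑ p ∈ P ∪ Icc 1 P₂, F p * (Real.log p / p) :=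
      sum_le_sum_of_subset_of_nonneg h1 fun p _ _ => hFl0 p
    have e1 := sum_union_inter (s₁ := P) (s₂ := Icc 1 P₂) (f := fun p : ℕ => F p * (Real.log p / p))
    have e3 : 0 ≤ ∑ p ∈ P ∩ Icc 1 P₂, F p * (Real.log p / p) := sum_nonneg fun p _ => hFl0 p
    have e4 : ∑ p ∈ Icc 1 P₂, F p * (Real.log p / p) ≤ G * B := by
      rw [hB, mul_sum]
      exact sum_le_sum fun p _ => mul_le_mul_of_nonneg_right (hFG p) (hlp0 p)
    linarith
  -- the bounds for the classes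
  set M : ℕ → ℝ := fun p => (1 + κ) * p / F p with hM
  have hMpos : ∀ p ∈ P, 0 < M p := by
    intro p hp
    have h1 : (0 : ℝ) < p := by exact_mod_cast (hPmem p hp).1.pos
    have h2 := hF1 p
    exact div_pos (by positivity) (by linarith)
  have hterm : ∀ p ∈ P, Real.log p / M p = F p * (Real.log p / p) / (1 + κ) := by
    intro p hp
    have h1 : (p : ℝ) ≠ 0 := by exact_mod_cast (hPmem p hp).1.ne_zero
    have h2 : F p ≠ 0 := by linarith [hF1 p]
    have h3 : 1 + κ ≠ 0 := by positivity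
    simp only [hM]
    field_simp
  have hcount : ∀ p ∈ P, (((hfin.toFinset.filter (A p)).image (red p)).card : ℝ) ≤ M p := by
    intro p hp
    obtain ⟨h1, h2, -, h4, -, -⟩ := hPmem p hp
    have hp0 : (0 : ℝ) < p := by exact_mod_cast h1.pos
    have h5 := (hA p h1 h2).2 ((hfin.toFinset.filter (A p)).image (red p)) (by
      intro t ht
      rw [mem_image] at ht
      obtain ⟨q, hq, rfl⟩ := ht
      exact ⟨q, (mem_filter.mp hq).2, rfl⟩)
    refine h5.trans ?_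
    have h6 := hF1 p
    have h7 : E ≤ κ * (p / F p) := by
      have h8 : |E| * G ≤ p * κ := by rwa [div_le_iff₀ hκ0] at h4
      have h9 : |E| * F p ≤ p * κ := le_trans (mul_le_mul_of_nonneg_left (hFG p) (abs_nonneg E)) h8
      have h10 : |E| ≤ p * κ / F p := by rwa [le_div_iff₀ (by linarith)]
      calc E ≤ |E| := le_abs_self E
        _ ≤ p * κ / F p := h10
        _ = κ * (p / F p) := by ring
    simp only [hM]
    calc p / F p + E ≤ p / F p + κ * (p / F p) := by linarith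
      _ = (1 + κ) * p / F p := by ring
  have hκ1 : 0 < 1 + κ := by linarith
  have hΛ : ∑ p ∈ P, Real.log p / M p ≤ b₂ * L / (1 + κ) := by
    rw [sum_congr rfl hterm, ← sum_div]
    refine div_le_div_of_nonneg_right ?_ hκ1.le
    have h1 : (avg N f + κ / θ) * Real.log n ≤ (avg N f + κ / θ) * (θ * L) :=
      mul_le_mul_of_nonneg_left hlogn1 (by positivity)
    have h2 : (avg N f + κ / θ) * (θ * L) = b₂ * L := by
      rw [hb₂, ha]; field_simp
    linarith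
  have hSV : ∀ q ∈ hfin.toFinset, (b₁ * L - c₂) / (1 + κ) ≤
      ∑ p ∈ P with A p q, Real.log p / M p := by
    intro q hq
    have hq' : q ∈ 𝒮 := hfin.mem_toFinset.mp hq
    have h1 : ∑ p ∈ P with A p q, Real.log p / M p =
        (∑ p ∈ P, F p * (Real.log p / p) - ∑ p ∈ P with ¬ A p q, F p * (Real.log p / p)) / (1 + κ) := by
      rw [sum_congr rfl fun p hp => hterm p (mem_filter.mp hp).1, ← sum_div]
      congr 1
      rw [← sum_filter_add_sum_filter_not P (fun p => A p q)]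
      ring
    rw [h1]
    refine div_le_div_of_nonneg_right ?_ hκ1.le
    have h2 : ∑ p ∈ P with ¬ A p q, F p * (Real.log p / p) ≤ κ * L := by
      calc ∑ p ∈ P with ¬ A p q, F p * (Real.log p / p)
          ≤ ∑ p ∈ P with ¬ A p q, G * (Real.log p / p) :=
            sum_le_sum fun p _ => mul_le_mul_of_nonneg_right (hFG p) (hlp0 p)
        _ = G * ∑ p ∈ P with ¬ A p q, Real.log p / p := by rw [mul_sum]
        _ ≤ G * ∑ p ∈ Icc 1 n with p.Prime ∧ ¬ A p q, Real.log p / p := by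
            refine mul_le_mul_of_nonneg_left ?_ (by linarith)
            refine sum_le_sum_of_subset_of_nonneg ?_ fun p _ _ => hlp0 p
            intro p hp
            rw [mem_filter] at hp
            have h := hPmem p hp.1
            rw [mem_filter, mem_Icc]
            exact ⟨⟨h.2.2.2.2.1, h.2.2.2.2.2⟩, h.1, hp.2⟩
        _ ≤ G * (κ / G * L) := mul_le_mul_of_nonneg_left hq'.2.2 (by linarith)
        _ = κ * L := by field_simp
    have h3 : avg N f * (θ * L) - κ * L - avg N f * Real.log 2 ≤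
        avg N f * Real.log n - κ / θ * Real.log n := by
      have h4 : avg N f * (θ * L - Real.log 2) ≤ avg N f * Real.log n :=
        mul_le_mul_of_nonneg_left hlogn2 havg.le
      have h5 : κ / θ * Real.log n ≤ κ / θ * (θ * L) :=
        mul_le_mul_of_nonneg_left hlogn1 (by positivity)
      have h6 : κ / θ * (θ * L) = κ * L := by field_simp
      linarith
    have h4 : avg N f * (θ * L) = a * L := by rw [ha]; ring
    rw [hb₁, hc₂]
    linarith
  have hV0 : 0 ≤ (b₁ * L - c₂) / (1 + κ) := by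
    refine div_nonneg ?_ hκ1.le
    rw [div_le_iff₀ hb1] at hLc2
    linarith
  have hmain := larger (P := P) (fun p hp => (hPmem p hp).1) (A := A)
    (fun p hp => (hA p (hPmem p hp).1 (hPmem p hp).2.1).1) (S := hfin.toFinset) (H := H) hH1
    (by
      intro q hq q' hq'
      have h1 : q ∈ 𝒮 := hfin.mem_toFinset.mp hq
      have h2 : q' ∈ 𝒮 := hfin.mem_toFinset.mp hq'
      exact mul_le_mul h1.1 h2.2.1 (Nat.cast_nonneg _) (by linarith)) M hMpos hcount hV0 hΛ hSV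
  have hth : ∑ p ∈ P, Real.log p ≤ 2 * H ^ θ := by
    have h1 : ∑ p ∈ P, Real.log p ≤ ∑ p ∈ Icc 1 n with p.Prime, Real.log p := by
      refine sum_le_sum_of_subset_of_nonneg ?_ fun p _ _ => Real.log_natCast_nonneg p
      intro p hp
      have h := hPmem p hp
      rw [mem_filter, mem_Icc]
      exact ⟨⟨h.2.2.2.2.1, h.2.2.2.2.2⟩, h.1⟩
    have h2 := theta_le' n
    linarith
  have hlog2 : Real.log (2 * H) = Real.log 2 + L := by
    rw [Real.log_mul (by norm_num) hH0.ne', hL]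
  have hkey : D / 2 * L ^ 2 / (1 + κ) ^ 2 ≤
      ((b₁ * L - c₂) / (1 + κ)) ^ 2 - b₂ * L / (1 + κ) * Real.log (2 * H) := by
    rw [hlog2]
    exact key_ineq hκ1 hD0 hD hc₃ (by linarith) hLc3
  have hcard0 : (0 : ℝ) ≤ hfin.toFinset.card := Nat.cast_nonneg _
  have h1 : (hfin.toFinset.card : ℝ) * (D / 2 * L ^ 2 / (1 + κ) ^ 2) ≤
      b₂ * L / (1 + κ) * (2 * H ^ θ) :=
    (mul_le_mul_of_nonneg_left hkey hcard0).trans (hmain.trans
      (mul_le_mul_of_nonneg_left hth (by positivity)))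
  have hcardeq : (𝒮.ncard : ℝ) = hfin.toFinset.card := by
    rw [Set.ncard_eq_toFinset_card 𝒮 hfin]
  rw [hcardeq]
  have hL0 : 0 < L := by linarith
  have h2 : (hfin.toFinset.card : ℝ) * L ≤ 4 * b₂ * (1 + κ) / D * H ^ θ :=
    fin_ineq hκ1 hD0 hL0 h1
  calc (hfin.toFinset.card : ℝ) ≤ hfin.toFinset.card * L := le_mul_of_one_le_right hcard0 hL1
    _ ≤ 4 * b₂ * (1 + κ) / D * H ^ θ := h2
    _ ≤ _ := mul_le_mul_of_nonneg_right (le_max_right _ _) (by positivity)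

end Pool.Agent.U927.PC
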