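import Pool.Agent.Cov.PNT

set_option autoImplicit false

/-!
The sum of `log p / p` over the primes in a residue class.
-/

namespace Pool.Agent.U927.PC

open Finset Filter Topology

/-- `log k` if `k` is a prime in the class `c`, zero otherwise. -/
noncomputable def wc {N : ℕ} (c : ZMod N) (k : ℕ) : ℝ :=
  if k.Prime ∧ (k : ZMod N) = c then Real.log k else 0

lemma wc_nonneg {N : ℕ} (c : ZMod N) (k : ℕ) : 0 ≤ wc c k := by
  unfold wc
  split_ifs
  · exact Real.log_natCast_nonneg k
  · exact le_rfl

open ArithmeticFunction in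
lemma sc_tendsto {N : ℕ} [NeZero N] {c : ZMod N} (hc : IsUnit c) :
    Tendsto (fun n : ℕ => (∑ k ∈ Icc 1 n, wc c k) / n) atTop (𝓝 ((N.totient : ℝ)⁻¹)) := by
  have h1 := (Pool.Agent.Cov.PNT.pnt_residueClass hc).comp tendsto_natCast_atTop_atTop
  have h2 : Tendsto (fun n : ℕ => (∑ k ∈ Icc 1 n, vonMangoldt.residueClass c k) / (n : ℝ) -
      (∑ k ∈ Icc 1 n, wc c k) / (n : ℝ)) atTop (𝓝 0) := by
    obtain ⟨C, hC⟩ := Chebyshev.psi_sub_theta_le_mul_sqrt
    have h3 : Tendsto (fun x : ℝ => C * (Real.sqrt x)⁻¹) atTop (𝓝 0) := by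
      have := (tendsto_inv_atTop_zero.comp Real.tendsto_sqrt_atTop).const_mul C
      simpa [Function.comp_def] using this
    refine squeeze_zero' ?_ ?_ (h3.comp tendsto_natCast_atTop_atTop)
    · filter_upwards [eventually_gt_atTop 0] with n hn
      rw [← sub_div]
      refine div_nonneg ?_ (Nat.cast_nonneg n)
      rw [← sum_sub_distrib]
      refine sum_nonneg fun k _ => ?_
      unfold wc
      split_ifs with h
      · rw [vonMangoldt.residueClass, Set.indicator_of_mem (by exact h.2),
          vonMangoldt_apply_prime h.1, sub_self]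
      · rw [sub_zero]; exact vonMangoldt.residueClass_nonneg c k
    · filter_upwards [eventually_gt_atTop 0] with n hn
      have hn' : (0 : ℝ) < n := by exact_mod_cast hn
      have h4 : (∑ k ∈ Icc 1 n, vonMangoldt.residueClass c k) - ∑ k ∈ Icc 1 n, wc c k ≤
          Chebyshev.psi n - Chebyshev.theta n := by
        rw [Chebyshev.psi_sub_theta_eq_sum_not_prime, ← sum_sub_distrib, Nat.floor_natCast,
          sum_filter]
        have e : Ioc 0 n = Icc 1 n := by ext x; simp only [mem_Ioc, mem_Icc]; omega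
        rw [e]
        refine sum_le_sum fun k _ => ?_
        by_cases hp : k.Prime
        · rw [if_neg (by simpa using hp)]
          unfold wc
          split_ifs with h
          · rw [vonMangoldt.residueClass, Set.indicator_of_mem (by exact h.2),
              vonMangoldt_apply_prime h.1, sub_self]
          · rw [sub_zero, vonMangoldt.residueClass, Set.indicator_of_notMem]
            intro h'
            exact h ⟨hp, h'⟩
        · rw [if_pos hp]
          have : wc c k = 0 := by
            unfold wc; rw [if_neg]; exact fun h => hp h.1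
          rw [this, sub_zero]
          exact vonMangoldt.residueClass_le c k
      have h5 := hC n
      simp only [Function.comp]
      rw [← sub_div, div_le_iff₀ hn']
      have h6 : C * (Real.sqrt (n : ℝ))⁻¹ * n = C * Real.sqrt n := by
        rw [mul_assoc]
        congr 1
        rw [inv_mul_eq_div, Real.div_sqrt]
      rw [h6]
      linarith
  have h7 := h1.sub h2
  rw [sub_zero] at h7
  refine h7.congr fun n => ?_
  simp only [Function.comp, Nat.floor_natCast]
  ring

/-- partial summation -/
lemma abel {w : ℕ → ℝ} (M : ℕ) : ∑ k ∈ Icc 1 M, w k / k = (∑ k ∈ Icc 1 M, w k) / (M + 1) +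
    ∑ j ∈ range M, (∑ k ∈ Icc 1 (j + 1), w k) / (((j : ℝ) + 1) * (j + 2)) := by
  induction M with
  | zero => simp
  | succ M ih =>
    rw [Finset.sum_Icc_succ_top (by omega), ih, sum_range_succ,
      Finset.sum_Icc_succ_top (by omega : 1 ≤ M + 1) (f := w)]
    push_cast
    have h1 : (M : ℝ) + 1 ≠ 0 := by positivity
    have h2 : (M : ℝ) + 2 ≠ 0 := by positivity
    field_simp
    ring

lemma tc_tendsto {N : ℕ} [NeZero N] {c : ZMod N} (hc : IsUnit c) :
    Tendsto (fun n : ℕ => (∑ k ∈ Icc 1 n, wc c k / k) / Real.log n) atTop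
      (𝓝 ((N.totient : ℝ)⁻¹)) := by
  set A : ℝ := (N.totient : ℝ)⁻¹ with hA
  have h1 := sc_tendsto hc
  rw [← hA] at h1
  set a : ℕ → ℝ := fun n => (∑ k ∈ Icc 1 n, wc c k) / n with ha
  have hH : Tendsto (fun n : ℕ => ∑ i ∈ range n, (1 : ℝ) / ((i : ℝ) + 1)) atTop atTop :=
    Real.tendsto_sum_range_one_div_nat_succ_atTop
  have hlog : Tendsto (fun n : ℕ => Real.log n) atTop atTop :=
    Real.tendsto_log_atTop.comp tendsto_natCast_atTop_atTop
  -- the harmonic sums
  have hHl : ∀ n : ℕ, Real.log (n + 1) ≤ ∑ i ∈ range n, (1 : ℝ) / ((i : ℝ) + 1) := by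
    intro n
    have := log_add_one_le_harmonic n
    unfold harmonic at this
    push_cast at this
    simpa [one_div] using this
  have hHu : ∀ n : ℕ, ∑ i ∈ range n, (1 : ℝ) / ((i : ℝ) + 1) ≤ 1 + Real.log n := by
    intro n
    have := harmonic_le_one_add_log n
    unfold harmonic at this
    push_cast at this
    simpa [one_div] using this
  have hHr : Tendsto (fun n : ℕ => (∑ i ∈ range n, (1 : ℝ) / ((i : ℝ) + 1)) / Real.log n) atTop
      (𝓝 1) := by
    have h0 : Tendsto (fun n : ℕ => 1 / Real.log n + 1) atTop (𝓝 (0 + 1)) :=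
      (hlog.const_div_atTop 1).add_const 1
    rw [zero_add] at h0
    refine tendsto_of_tendsto_of_tendsto_of_le_of_le' tendsto_const_nhds h0 ?_ ?_
    · filter_upwards [hlog.eventually_gt_atTop 0, eventually_gt_atTop 0] with n hn hn0
      rw [le_div_iff₀ hn, one_mul]
      refine le_trans ?_ (hHl n)
      exact Real.log_le_log (by exact_mod_cast hn0) (by linarith)
    · filter_upwards [hlog.eventually_gt_atTop 0] with n hn
      rw [div_le_iff₀ hn]
      have := hHu n
      field_simp
      linarith
  -- the main term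
  have ho : (fun j : ℕ => (∑ k ∈ Icc 1 (j + 1), wc c k) / (((j : ℝ) + 1) * (j + 2)) -
      A * (1 / ((j : ℝ) + 1))) =o[atTop] fun j : ℕ => (1 : ℝ) / ((j : ℝ) + 1) := by
    rw [Asymptotics.isLittleO_iff_tendsto' (by
      filter_upwards with j hj
      exfalso
      have : (0 : ℝ) < 1 / ((j : ℝ) + 1) := by positivity
      exact this.ne' hj)]
    have h2 : Tendsto (fun j : ℕ => a (j + 1) * (((j : ℝ) + 1) / (j + 2)) - A) atTop
        (𝓝 (A * 1 - A)) := by
      refine ((h1.comp (tendsto_add_atTop_nat 1)).mul ?_).sub_const A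
      have h3 : Tendsto (fun j : ℕ => 1 - 1 / ((j : ℝ) + 2)) atTop (𝓝 (1 - 0)) := by
        refine tendsto_const_nhds.sub ?_
        refine tendsto_const_nhds.div_atTop ?_
        exact tendsto_atTop_add_const_right _ _ tendsto_natCast_atTop_atTop
      rw [sub_zero] at h3
      refine h3.congr fun j => ?_
      have : (j : ℝ) + 2 ≠ 0 := by positivity
      field_simp
      ring
    rw [mul_one, sub_self] at h2
    refine h2.congr fun j => ?_
    have e1 : (j : ℝ) + 1 ≠ 0 := by positivity
    have e2 : (j : ℝ) + 2 ≠ 0 := by positivity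
    simp only [ha]
    push_cast
    field_simp
  have ho2 := ho.sum_range (fun j => by positivity) hH
  have h3 : Tendsto (fun n : ℕ => (∑ i ∈ range n, ((∑ k ∈ Icc 1 (i + 1), wc c k) /
      (((i : ℝ) + 1) * (i + 2)) - A * (1 / ((i : ℝ) + 1)))) /
      ∑ i ∈ range n, (1 : ℝ) / ((i : ℝ) + 1)) atTop (𝓝 0) := ho2.tendsto_div_nhds_zero
  have h4 := h3.mul hHr
  rw [zero_mul] at h4
  have h5 : Tendsto (fun n : ℕ => (∑ k ∈ Icc 1 n, wc c k) / (n + 1) / Real.log n) atTop (𝓝 0) := by
    have h6 : Tendsto (fun n : ℕ => a n * (1 / Real.log n)) atTop (𝓝 (A * 0)) :=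
      h1.mul (hlog.const_div_atTop 1)
    rw [mul_zero] at h6
    refine squeeze_zero' ?_ ?_ h6
    · filter_upwards [hlog.eventually_gt_atTop 0] with n hn
      exact div_nonneg (div_nonneg (sum_nonneg fun k _ => wc_nonneg c k) (by positivity)) hn.le
    · filter_upwards [hlog.eventually_gt_atTop 0, eventually_gt_atTop 0] with n hn hn0
      have hn0' : (0 : ℝ) < n := by exact_mod_cast hn0
      simp only [ha]
      rw [div_eq_mul_one_div]
      refine mul_le_mul_of_nonneg_right ?_ (by positivity)
      refine div_le_div_of_nonneg_left (sum_nonneg fun k _ => wc_nonneg c k) hn0' (by linarith)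
  have h7 := (h5.add h4).add (hHr.const_mul A)
  rw [zero_add, zero_add, mul_one] at h7
  refine h7.congr' ?_
  filter_upwards [hlog.eventually_gt_atTop 0, eventually_gt_atTop 0] with n hn hn0
  have hHpos : 0 < ∑ i ∈ range n, (1 : ℝ) / ((i : ℝ) + 1) :=
    sum_pos (fun i _ => by positivity) ⟨0, mem_range.mpr hn0⟩
  rw [abel, sum_sub_distrib, ← mul_sum]
  field_simp
  ring

end Pool.Agent.U927.PC
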