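import Pool.Agent.U927.PC.Rec
import Pool.Agent.W432.WB.Wron
import Pool.Agent.W432.HK.Ord

set_option autoImplicit false

/-!
Modulo `p`: the parameters for which an operator of a family has a full basis of rational solutions
are roots of the first compatibility condition.
-/

namespace Pool.Agent.U927.PC

open Polynomial
open Pool.Agent.W432.WB (FullMod FullMod.exists_poly)
open Pool.Agent.W432.HK (classes V_sol ind_of_wronskian dsum dsum_eval dsum_natDegree_le dsum_ne_zero V)

section coeff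

variable {F : Type*} [Field F]

lemma coeff_X_pow_mul_iter (y : F[X]) (i l : ℕ) :
    (X ^ i * derivative^[i] y).coeff l = (descPochhammer F i).eval (l : F) * y.coeff l := by
  rw [descPochhammer_eval_eq_descFactorial, coeff_X_pow_mul']
  split_ifs with h
  · rw [coeff_iterate_derivative, show l - i + i = l by omega, nsmul_eq_mul]
  · rw [Nat.descFactorial_of_lt (by omega)]; simp

lemma coeff_term {B y : F[X]} {i : ℕ} (hB : X ^ i ∣ B) (K : ℕ) :
    (B * derivative^[i] y).coeff K = ∑ l ∈ Finset.range (K + 1),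
      B.coeff (i + (K - l)) * (descPochhammer F i).eval (l : F) * y.coeff l := by
  obtain ⟨c, rfl⟩ := hB
  have h1 : X ^ i * c * derivative^[i] y = (X ^ i * derivative^[i] y) * c := by ring
  rw [h1, coeff_mul, Finset.Nat.sum_antidiagonal_eq_sum_range_succ
    (fun u v => (X ^ i * derivative^[i] y : F[X]).coeff u * c.coeff v) K]
  refine Finset.sum_congr rfl fun l _ => ?_
  have h2 : (X ^ i * c).coeff (i + (K - l)) = c.coeff (K - l) := by
    rw [add_comm, coeff_X_pow_mul]
  rw [coeff_X_pow_mul_iter, h2]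
  ring

lemma sol_coeff {n : ℕ} {B : Fin (n + 1) → F[X]} (hB : ∀ i : Fin (n + 1), X ^ (i : ℕ) ∣ B i) {y : F[X]}
    (hy : ∑ i : Fin (n + 1), B i * derivative^[(i : ℕ)] y = 0) (K : ℕ) :
    ∑ l ∈ Finset.range (K + 1), (∑ i : Fin (n + 1), (B i).coeff (i + (K - l)) *
      (descPochhammer F i).eval (l : F)) * y.coeff l = 0 := by
  have h := congrArg (fun q => coeff q K) hy
  simp only [finsetSum_coeff, coeff_zero] at h
  rw [← h, Finset.sum_congr rfl fun (i : Fin (n + 1)) _ => coeff_term (hB i) K, Finset.sum_comm]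
  refine Finset.sum_congr rfl fun l _ => ?_
  rw [Finset.sum_mul]

lemma trail_root {n : ℕ} {B : Fin (n + 1) → F[X]} (hB : ∀ i : Fin (n + 1), X ^ (i : ℕ) ∣ B i)
    {y : F[X]} (hy0 : y ≠ 0) (hy : ∑ i : Fin (n + 1), B i * derivative^[(i : ℕ)] y = 0) :
    (dsum fun i : Fin (n + 1) => (B i).coeff i).eval (y.natTrailingDegree : F) = 0 := by
  have h := sol_coeff hB hy y.natTrailingDegree
  rw [Finset.sum_range_succ, Finset.sum_eq_zero, zero_add] at h
  · rw [dsum_eval]
    simpa [hy0] using h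
  · intro l hl
    rw [coeff_eq_zero_of_lt_natTrailingDegree (Finset.mem_range.mp hl), mul_zero]

end coeff

variable {n d : ℕ} {p : ℕ} [hp : Fact p.Prime]

/-- A full basis modulo `p` contains solutions with all the exponents at `0`. -/
theorem exists_ord {b : Fin (n + 1) → ℤ[X]} (h : FullMod b p)
    (hb : ∀ i : Fin (n + 1), X ^ (i : ℕ) ∣ (b i).map (Int.castRingHom (ZMod p)))
    (hβ : (((b (Fin.last n)).coeff n : ℤ) : ZMod p) ≠ 0) {e : ZMod p}
    (he : (dsum fun i : Fin (n + 1) => (((b i).coeff i : ℤ) : ZMod p)).eval e = 0) :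
    ∃ y : (ZMod p)[X], y ≠ 0 ∧ (y.natTrailingDegree : ZMod p) = e ∧
      ∑ i : Fin (n + 1), (b i).map (Int.castRingHom (ZMod p)) * derivative^[(i : ℕ)] y = 0 := by
  classical
  have hb0 : (b (Fin.last n)).map (Int.castRingHom (ZMod p)) ≠ 0 := by
    intro h0
    apply hβ
    have := congrArg (fun q => coeff q n) h0
    simpa using this
  obtain ⟨f, hf, hdet⟩ := h.exists_poly hb0
  have hS := classes (p := p) f (ind_of_wronskian hdet) (fun y => y.natTrailingDegree)
    (fun o => lcoeff (ZMod p) o) (fun y _ => natTrailingDegree_le_natDegree y)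
    (fun y hy => by
      rw [lcoeff_apply]
      exact trailingCoeff_nonzero_iff_nonzero.mpr hy)
  set S := Finset.univ.filter fun c : ZMod p => ∃ y ∈ V f, y ≠ 0 ∧
    ((y.natTrailingDegree : ℕ) : ZMod p) = c with hSdef
  set P : (ZMod p)[X] := dsum fun i : Fin (n + 1) => (((b i).coeff i : ℤ) : ZMod p) with hP
  have hP' : (dsum fun i : Fin (n + 1) => ((b i).map (Int.castRingHom (ZMod p))).coeff i) = P := by
    rw [hP]; congr 1; funext i; simp
  have hP0 : P ≠ 0 := by
    rw [hP]
    refine dsum_ne_zero fun h0 => hβ ?_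
    have := congrFun h0 (Fin.last n)
    simpa using this
  have hsub : S ⊆ P.roots.toFinset := by
    intro c hc
    rw [hSdef, Finset.mem_filter] at hc
    obtain ⟨-, y, hyV, hy0, rfl⟩ := hc
    rw [Multiset.mem_toFinset, mem_roots hP0, IsRoot.def, ← hP']
    exact trail_root hb hy0 (V_sol hf hyV)
  have hdeg : P.natDegree ≤ n := dsum_natDegree_le _ fun k hk => by
    have := k.isLt
    omega
  have hcard : P.roots.toFinset.card ≤ S.card :=
    ((Multiset.toFinset_card_le _).trans ((card_roots' _).trans hdeg)).trans hS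
  have heq : S = P.roots.toFinset := Finset.eq_of_subset_of_card_le hsub hcard
  have he' : e ∈ S := by
    rw [heq, Multiset.mem_toFinset, mem_roots hP0]
    exact he
  rw [hSdef, Finset.mem_filter] at he'
  obtain ⟨-, y, hyV, hy0, hyc⟩ := he'
  exact ⟨y, hy0, hyc, V_sol hf hyV⟩

/-- The family `∑ a^k m^(d-k) b_k + a^d r`. -/
noncomputable def fam (b : Fin d → Fin (n + 1) → ℤ[X]) (r : ℤ[X]) (a m : ℤ) :
    Fin (n + 1) → ℤ[X] :=
  fun i => (∑ k : Fin d, C (a ^ (k : ℕ) * m ^ (d - k)) * b k i) + if i = 0 then C (a ^ d) * r else 0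

/-- The coefficients of the recursion modulo `p`, as polynomials in the parameter. -/
noncomputable def ph (p : ℕ) [Fact p.Prime] (b : Fin d → Fin (n + 1) → ℤ[X]) (r : ℤ[X]) (j : ℕ)
    (x : ZMod p) : (ZMod p)[X] :=
  (∑ k : Fin d, C (∑ i : Fin (n + 1), (((b k i).coeff (i + j) : ℤ) : ZMod p) *
    (descPochhammer (ZMod p) i).eval x) * X ^ (k : ℕ)) + C ((r.coeff j : ℤ) : ZMod p) * X ^ d

/-- The indicial function at `0` modulo `p`. -/
noncomputable def chi (p : ℕ) [Fact p.Prime] (b : Fin d → Fin (n + 1) → ℤ[X]) (hd : 1 ≤ d)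
    (x : ZMod p) : ZMod p :=
  ∑ i : Fin (n + 1), (((b ⟨0, hd⟩ i).coeff i : ℤ) : ZMod p) * (descPochhammer (ZMod p) i).eval x

/-- The conditions on a family with a regular singular point at `0` whose exponents do not depend
on the parameter. -/
structure Reg (b : Fin d → Fin (n + 1) → ℤ[X]) (r : ℤ[X]) : Prop where
  h0 : ∀ (k : Fin d) (i : Fin (n + 1)), X ^ (i : ℕ) ∣ b k i
  h1 : ∀ (k : Fin d) (i : Fin (n + 1)), (k : ℕ) ≠ 0 → X ^ ((i : ℕ) + 1) ∣ b k i
  hr : X ∣ r

variable {b : Fin d → Fin (n + 1) → ℤ[X]} {r : ℤ[X]}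

lemma ph_natDegree (j : ℕ) (x : ZMod p) : (ph p b r j x).natDegree ≤ d := by
  unfold ph
  refine (natDegree_add_le _ _).trans (max_le ?_ ?_)
  · refine natDegree_sum_le_of_forall_le _ _ fun k _ => ?_
    exact (natDegree_C_mul_X_pow_le _ _).trans k.2.le
  · exact natDegree_C_mul_X_pow_le _ _

lemma ph_coeff (j : ℕ) (x : ZMod p) : (ph p b r j x).coeff d = ((r.coeff j : ℤ) : ZMod p) := by
  unfold ph
  rw [coeff_add, finsetSum_coeff, Finset.sum_eq_zero, zero_add, coeff_C_mul_X_pow, if_pos rfl]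
  intro k _
  rw [coeff_C_mul_X_pow, if_neg]
  exact k.2.ne'

lemma ph_zero (h : Reg b r) (hd : 1 ≤ d) (x : ZMod p) : ph p b r 0 x = C (chi p b hd x) := by
  unfold ph chi
  have hr0 : r.coeff 0 = 0 := X_dvd_iff.mp h.hr
  rw [hr0, Int.cast_zero, C_0, zero_mul, add_zero, Finset.sum_eq_single (⟨0, hd⟩ : Fin d)]
  · simp
  · intro k _ hk
    have hk0 : (k : ℕ) ≠ 0 := fun h0 => hk (Fin.ext h0)
    have : ∀ i : Fin (n + 1), (b k i).coeff (i + 0) = 0 := fun i =>
      X_pow_dvd_iff.mp (h.h1 k i hk0) _ (by omega)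
    simp only [add_zero] at this
    simp [this]
  · intro h0; exact absurd (Finset.mem_univ _) h0

lemma fam_dvd (h : Reg b r) (a m : ℤ) (i : Fin (n + 1)) :
    X ^ (i : ℕ) ∣ (fam b r a m i).map (Int.castRingHom (ZMod p)) := by
  have h1 : X ^ (i : ℕ) ∣ fam b r a m i := by
    unfold fam
    refine dvd_add (Finset.dvd_sum fun k _ => (h.h0 k i).mul_left _) ?_
    split_ifs with h0
    · rw [h0]; simp
    · exact dvd_zero _
  have := Polynomial.map_dvd (Int.castRingHom (ZMod p)) h1
  simpa using this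

lemma fam_coeff (a m : ℤ) (i : Fin (n + 1)) (j : ℕ) :
    (fam b r a m i).coeff j = ∑ k : Fin d, a ^ (k : ℕ) * m ^ (d - k) * (b k i).coeff j +
      if i = 0 then a ^ d * r.coeff j else 0 := by
  unfold fam
  rw [coeff_add, finsetSum_coeff]
  congr 1
  · exact Finset.sum_congr rfl fun k _ => coeff_C_mul _
  · split_ifs
    · rw [coeff_C_mul]
    · rw [coeff_zero]

/-- The recursion of the family is `m^d` times the evaluation of `ph` at `a / m`. -/
lemma fam_ph (a m : ℤ) (hm : (m : ZMod p) ≠ 0) (j : ℕ) (x : ZMod p) :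
    ∑ i : Fin (n + 1), (((fam b r a m i).map (Int.castRingHom (ZMod p))).coeff (i + j)) *
      (descPochhammer (ZMod p) i).eval x = (m : ZMod p) ^ d * (ph p b r j x).eval ((a : ZMod p) / (m : ZMod p)) := by
  have h1 : ∀ i : Fin (n + 1), ((fam b r a m i).map (Int.castRingHom (ZMod p))).coeff (i + j) *
      (descPochhammer (ZMod p) i).eval x = (∑ k : Fin d, (a : ZMod p) ^ (k : ℕ) * (m : ZMod p) ^ (d - k) *
        (((b k i).coeff (i + j) : ℤ) : ZMod p) * (descPochhammer (ZMod p) i).eval x) +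
        if i = 0 then (a : ZMod p) ^ d * ((r.coeff j : ℤ) : ZMod p) else 0 := by
    intro i
    rw [coeff_map, fam_coeff, eq_intCast, Int.cast_add, add_mul, Int.cast_sum, Finset.sum_mul]
    congr 1
    · refine Finset.sum_congr rfl fun k _ => ?_
      push_cast; ring
    · split_ifs with h0
      · subst h0; simp
      · simp
  rw [Finset.sum_congr rfl fun i _ => h1 i, Finset.sum_add_distrib, Finset.sum_ite_eq' Finset.univ
    (0 : Fin (n + 1)) (fun _ => (a : ZMod p) ^ d * ((r.coeff j : ℤ) : ZMod p)),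
    if_pos (Finset.mem_univ _), Finset.sum_comm]
  unfold ph
  rw [eval_add, eval_finsetSum, mul_add, Finset.mul_sum]
  congr 1
  · refine Finset.sum_congr rfl fun k _ => ?_
    rw [eval_mul, eval_C, eval_pow, eval_X, div_pow, Finset.sum_mul, Finset.mul_sum]
    refine Finset.sum_congr rfl fun i _ => ?_
    have h2 : (m : ZMod p) ^ d = (m : ZMod p) ^ (d - k) * (m : ZMod p) ^ (k : ℕ) := by
      rw [← pow_add, Nat.sub_add_cancel k.2.le]
    rw [h2]
    field_simp
  · rw [eval_mul, eval_C, eval_pow, eval_X, div_pow]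
    field_simp

/-- The number of parameters modulo `p` which give a full basis is at most `d g`, if two exponents
differ by `g` modulo `p`. -/
theorem card_le (hd : 1 ≤ d) (h : Reg b r) (hr1 : ((r.coeff 1 : ℤ) : ZMod p) ≠ 0)
    (hβ : (((b ⟨0, hd⟩ (Fin.last n)).coeff n : ℤ) : ZMod p) ≠ 0) {e : ZMod p}
    (he : chi p b hd e = 0) {g₀ : ℕ} (hg₀ : 0 < g₀) (he' : chi p b hd (e + g₀) = 0)
    (T : Finset (ZMod p)) (hT : ∀ t ∈ T, ∃ a m : ℤ, (m : ZMod p) ≠ 0 ∧ (a : ZMod p) / m = t ∧
      FullMod (fam b r a m) p) : T.card ≤ d * g₀ := by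
  classical
  have hex : ∃ g : ℕ, 0 < g ∧ chi p b hd (e + g) = 0 := ⟨g₀, hg₀, he'⟩
  set g := Nat.find hex with hg
  obtain ⟨hg1, hg2⟩ := Nat.find_spec hex
  rw [← hg] at hg1 hg2
  have hgle : g ≤ g₀ := Nat.find_min' hex ⟨hg₀, he'⟩
  have hmin : ∀ k : ℕ, 0 < k → k < g → chi p b hd (e + k) ≠ 0 := fun k hk hkg h0 =>
    Nat.find_min hex hkg ⟨hk, h0⟩
  obtain ⟨hR1, hR2⟩ := R_ne (χ := chi p b hd) (φ := ph p b r) hd ph_natDegree
    (fun x => ph_coeff (b := b) (r := r) 1 x) hr1 e hg1 hmin
  have hsub : T ⊆ (R (chi p b hd) (ph p b r) e g).roots.toFinset := by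
    intro t ht
    obtain ⟨a, m, hm, rfl, hF⟩ := hT t ht
    rw [Multiset.mem_toFinset, mem_roots hR2, IsRoot.def]
    have hlead : (fun i : Fin (n + 1) => (((fam b r a m i).coeff i : ℤ) : ZMod p)) =
        fun i : Fin (n + 1) => (m : ZMod p) ^ d * (((b ⟨0, hd⟩ i).coeff i : ℤ) : ZMod p) := by
      funext i
      rw [fam_coeff, Finset.sum_eq_single (⟨0, hd⟩ : Fin d)]
      · have : (if i = 0 then a ^ d * r.coeff i else 0 : ℤ) = 0 := by
          split_ifs with h0
          · subst h0
            rw [Fin.val_zero, X_dvd_iff.mp h.hr, mul_zero]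
          · rfl
        rw [this]
        push_cast
        simp
      · intro k _ hk
        have hk0 : (k : ℕ) ≠ 0 := fun h0 => hk (Fin.ext h0)
        rw [X_pow_dvd_iff.mp (h.h1 k i hk0) _ (Nat.lt_succ_self _), mul_zero]
      · intro h0; exact absurd (Finset.mem_univ _) h0
    have hmd : (m : ZMod p) ^ d ≠ 0 := pow_ne_zero _ hm
    obtain ⟨y, hy0, hye, hysol⟩ := exists_ord (p := p) hF (fun i => fam_dvd h a m i) (by
      have := congrFun hlead (Fin.last n)
      simp only [Fin.val_last] at this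
      rw [this]
      exact mul_ne_zero hmd hβ) (e := e) (by
      rw [hlead, dsum_eval]
      have : ∑ k : Fin (n + 1), (m : ZMod p) ^ d * (((b ⟨0, hd⟩ k).coeff k : ℤ) : ZMod p) *
          (descPochhammer (ZMod p) k).eval e = (m : ZMod p) ^ d * chi p b hd e := by
        unfold chi
        rw [Finset.mul_sum]
        exact Finset.sum_congr rfl fun k _ => by ring
      rw [this, he, mul_zero])
    rw [← hye]
    refine R_eval (χ := chi p b hd) (φ := ph p b r) (fun x => ph_zero h hd x)
      (t := (a : ZMod p) / m) (y := fun l => y.coeff l) (o := y.natTrailingDegree)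
      (fun l hl => coeff_eq_zero_of_lt_natTrailingDegree hl)
      (trailingCoeff_nonzero_iff_nonzero.mpr hy0) ?_ hg1 ?_ ?_
    · intro K
      have h2 := sol_coeff (fun i => fam_dvd h a m i) hysol K
      have h3 : (m : ZMod p) ^ d * ∑ l ∈ Finset.range (K + 1),
          (ph p b r (K - l) (l : ZMod p)).eval ((a : ZMod p) / m) * y.coeff l = 0 := by
        rw [← h2, Finset.mul_sum]
        refine Finset.sum_congr rfl fun l _ => ?_
        rw [fam_ph a m hm, mul_assoc]
      exact (mul_eq_zero.mp h3).resolve_left hmd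
    · intro k hk hkg
      rw [hye]
      exact hmin k hk hkg
    · rw [hye]
      exact hg2
  calc T.card ≤ _ := Finset.card_le_card hsub
    _ ≤ (R (chi p b hd) (ph p b r) e g).roots.card := Multiset.toFinset_card_le _
    _ ≤ _ := card_roots' _
    _ ≤ d * g := hR1
    _ ≤ d * g₀ := Nat.mul_le_mul_left _ hgle

/-- If `p` divides the denominator of the parameter, there is no full basis. -/
theorem not_full (hn : 1 ≤ n) {a m : ℤ} (hm : (m : ZMod p) = 0) (ha : (a : ZMod p) ≠ 0)
    (hr1 : ((r.coeff 1 : ℤ) : ZMod p) ≠ 0) : ¬ FullMod (fam b r a m) p := by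
  rintro ⟨D, hD, y, hy, hind⟩
  have hinj : Function.Injective (algebraMap (ZMod p)[X] (RatFunc (ZMod p))) :=
    IsFractionRing.injective _ _
  have hmap : ∀ i : Fin (n + 1), (fam b r a m i).map (Int.castRingHom (ZMod p)) =
      if i = 0 then C ((a : ZMod p) ^ d) * r.map (Int.castRingHom (ZMod p)) else 0 := by
    intro i
    unfold fam
    rw [Polynomial.map_add, Polynomial.map_sum, Finset.sum_eq_zero, zero_add]
    · split_ifs <;> simp
    · intro k _
      rw [Polynomial.map_mul, Polynomial.map_C]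
      have : (Int.castRingHom (ZMod p)) (a ^ (k : ℕ) * m ^ (d - k)) = 0 := by
        rw [eq_intCast]; push_cast
        have hk : d - (k : ℕ) ≠ 0 := by have := k.2; omega
        rw [hm, zero_pow hk, mul_zero]
      rw [this, C_0, zero_mul]
  have haev : ∀ P : ℤ[X], Polynomial.aeval (RatFunc.X : RatFunc (ZMod p)) P =
      algebraMap (ZMod p)[X] (RatFunc (ZMod p)) (P.map (Int.castRingHom (ZMod p))) :=
    fun P => Pool.Agent.W432.WB.aeval_eq P
  have hne : algebraMap (ZMod p)[X] (RatFunc (ZMod p)) (C ((a : ZMod p) ^ d) *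
      r.map (Int.castRingHom (ZMod p))) ≠ 0 := by
    rw [ne_eq, map_eq_zero_iff _ hinj]
    refine mul_ne_zero (C_ne_zero.mpr (pow_ne_zero _ ha)) fun h0 => hr1 ?_
    have := congrArg (fun q => coeff q 1) h0
    simpa using this
  have h1 := hy ⟨0, hn⟩
  rw [Finset.sum_eq_single (0 : Fin (n + 1))] at h1
  · rw [haev, hmap, if_pos rfl, Fin.val_zero, Function.iterate_zero, id_eq] at h1
    have h2 := (mul_eq_zero.mp h1).resolve_left hne
    have h3 := hind (fun j => if j = ⟨0, hn⟩ then 1 else 0) (by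
      intro j
      split_ifs
      · exact D.map_one_eq_zero
      · exact map_zero D) (by simp [h2]) ⟨0, hn⟩
    simp at h3
  · intro i _ hi
    rw [haev, hmap, if_neg hi, map_zero, zero_mul]
  · intro h0; exact absurd (Finset.mem_univ _) h0

end Pool.Agent.U927.PC
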