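import Mathlib

set_option autoImplicit false

/-!
Recursions with a parameter: the first compatibility condition is a polynomial condition on the
parameter of known degree.
-/

namespace Pool.Agent.U927.PC

open Polynomial

variable {F : Type*} [Field F]

/-- The coefficients of a solution as polynomials in the parameter: `φ j x` is the coefficient of
the shift by `j` at `x`, `χ` the indicial function and `e` the first exponent. -/
noncomputable def Y (χ : F → F) (φ : ℕ → F → F[X]) (e : F) : ℕ → F[X]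
  | 0 => 1
  | k + 1 => -(C (χ (e + ((k + 1 : ℕ) : F)))⁻¹ *
      ∑ l : Fin (k + 1), φ (k + 1 - l) (e + ((l : ℕ) : F)) * Y χ φ e l)

/-- The compatibility condition after `g` steps. -/
noncomputable def R (χ : F → F) (φ : ℕ → F → F[X]) (e : F) (g : ℕ) : F[X] :=
  ∑ l : Fin g, φ (g - l) (e + ((l : ℕ) : F)) * Y χ φ e l

lemma Y_succ (χ : F → F) (φ : ℕ → F → F[X]) (e : F) (k : ℕ) :
    Y χ φ e (k + 1) = -(C (χ (e + ((k + 1 : ℕ) : F)))⁻¹ * R χ φ e (k + 1)) := by
  rw [Y, R]

variable {χ : F → F} {φ : ℕ → F → F[X]} {d : ℕ} {ρ : F}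

lemma R_deg (hd : 1 ≤ d) (hφ : ∀ j x, (φ j x).natDegree ≤ d) (hρ : ∀ x, (φ 1 x).coeff d = ρ)
    (e : F) (k : ℕ) (h : ∀ l ≤ k, (Y χ φ e l).natDegree ≤ d * l) :
    (R χ φ e (k + 1)).natDegree ≤ d * (k + 1) ∧
      (R χ φ e (k + 1)).coeff (d * (k + 1)) = ρ * (Y χ φ e k).coeff (d * k) := by
  have hterm : ∀ l : Fin (k + 1), (φ (k + 1 - l) (e + ((l : ℕ) : F)) * Y χ φ e l).natDegree ≤
      d + d * l := fun l => natDegree_mul_le.trans
        (Nat.add_le_add (hφ _ _) (h l (Nat.lt_succ_iff.mp l.2)))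
  constructor
  · refine natDegree_sum_le_of_forall_le _ _ fun l _ => (hterm l).trans ?_
    have : (l : ℕ) + 1 ≤ k + 1 := l.2
    calc d + d * l = d * (l + 1) := by ring
      _ ≤ d * (k + 1) := Nat.mul_le_mul_left _ this
  · rw [R, finsetSum_coeff, Fin.sum_univ_castSucc, Finset.sum_eq_zero, zero_add]
    · simp only [Fin.val_last]
      have e1 : k + 1 - k = 1 := by omega
      rw [e1, show d * (k + 1) = d + d * k by ring,
        coeff_mul_add_eq_of_natDegree_le (hφ _ _) (h k le_rfl), hρ]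
    · intro l _
      refine coeff_eq_zero_of_natDegree_lt ((hterm (Fin.castSucc l)).trans_lt ?_)
      have h1 : ((Fin.castSucc l : Fin (k + 1)) : ℕ) + 1 < k + 1 := by
        rw [Fin.val_castSucc]; have := l.2; omega
      calc d + d * ((Fin.castSucc l : Fin (k + 1)) : ℕ)
          = d * (((Fin.castSucc l : Fin (k + 1)) : ℕ) + 1) := by ring
        _ < d * (k + 1) := Nat.mul_lt_mul_of_pos_left h1 hd

lemma Y_deg (hd : 1 ≤ d) (hφ : ∀ j x, (φ j x).natDegree ≤ d) (hρ : ∀ x, (φ 1 x).coeff d = ρ)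
    (hρ0 : ρ ≠ 0) (e : F) {g : ℕ} (hχ : ∀ k : ℕ, 0 < k → k < g → χ (e + k) ≠ 0) (k : ℕ) (hk : k < g) :
    (Y χ φ e k).natDegree ≤ d * k ∧ (Y χ φ e k).coeff (d * k) ≠ 0 := by
  induction k using Nat.strong_induction_on with
  | _ k ih =>
    rcases k with _ | k
    · rw [Y]; simp
    · have h1 := R_deg (χ := χ) hd hφ hρ e k fun l hl => (ih l (by omega) (by omega)).1
      rw [Y_succ, natDegree_neg, coeff_neg, coeff_C_mul]
      refine ⟨(natDegree_C_mul_le _ _).trans h1.1, ?_⟩
      rw [neg_ne_zero, h1.2]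
      exact mul_ne_zero (inv_ne_zero (hχ _ (by omega) hk))
        (mul_ne_zero hρ0 (ih k (by omega) (by omega)).2)

lemma R_ne (hd : 1 ≤ d) (hφ : ∀ j x, (φ j x).natDegree ≤ d) (hρ : ∀ x, (φ 1 x).coeff d = ρ)
    (hρ0 : ρ ≠ 0) (e : F) {g : ℕ} (hg : 0 < g) (hχ : ∀ k : ℕ, 0 < k → k < g → χ (e + k) ≠ 0) :
    (R χ φ e g).natDegree ≤ d * g ∧ R χ φ e g ≠ 0 := by
  obtain ⟨k, rfl⟩ : ∃ k, g = k + 1 := ⟨g - 1, by omega⟩
  have h0 := fun l (hl : l ≤ k) => Y_deg hd hφ hρ hρ0 e hχ l (by omega)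
  have h1 := R_deg (χ := χ) hd hφ hρ e k fun l hl => (h0 l hl).1
  refine ⟨h1.1, fun h => ?_⟩
  have h2 := h1.2
  rw [h, coeff_zero] at h2
  exact mul_ne_zero hρ0 (h0 k le_rfl).2 h2.symm

/-- A solution of the recursion satisfies the compatibility condition. -/
lemma R_eval (hφ0 : ∀ x, φ 0 x = C (χ x)) {t : F} {y : ℕ → F} {o : ℕ} (hlt : ∀ l < o, y l = 0)
    (ho : y o ≠ 0)
    (hy : ∀ K, ∑ l ∈ Finset.range (K + 1), (φ (K - l) (l : F)).eval t * y l = 0) {g : ℕ} (hg : 0 < g)
    (hχ : ∀ k : ℕ, 0 < k → k < g → χ (o + k) ≠ 0) (hχg : χ (o + g) = 0) :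
    (R χ φ (o : F) g).eval t = 0 := by
  -- the equation in terms of `o + k`
  have hy' : ∀ k, ∑ l ∈ Finset.range (k + 1), (φ (k - l) ((o : F) + l)).eval t * y (o + l) = 0 := by
    intro k
    have h := hy (o + k)
    rw [show o + k + 1 = o + (k + 1) by ring, Finset.sum_range_add, Finset.sum_eq_zero, zero_add] at h
    · rw [← h]
      refine Finset.sum_congr rfl fun l _ => ?_
      rw [show o + k - (o + l) = k - l by omega]
      push_cast; rfl
    · intro l hl
      rw [hlt l (Finset.mem_range.mp hl), mul_zero]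
  have hYv : ∀ k < g, y (o + k) = (Y χ φ (o : F) k).eval t * y o := by
    intro k
    induction k using Nat.strong_induction_on with
    | _ k ih =>
      intro hk
      rcases k with _ | k
      · rw [Y]; simp
      · have h1 := hy' (k + 1)
        rw [Finset.sum_range_succ] at h1
        have e1 : k + 1 - (k + 1) = 0 := by omega
        rw [e1, hφ0, eval_C] at h1
        have h2 : ∑ l ∈ Finset.range (k + 1), (φ (k + 1 - l) ((o : F) + l)).eval t * y (o + l) =
            (R χ φ (o : F) (k + 1)).eval t * y o := by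
          rw [R, eval_finsetSum, Finset.sum_mul, ← Fin.sum_univ_eq_sum_range
            (fun l => (φ (k + 1 - l) ((o : F) + l)).eval t * y (o + l))]
          refine Finset.sum_congr rfl fun l _ => ?_
          rw [ih l (by have := l.2; omega) (by have := l.2; omega), eval_mul]
          ring
        rw [h2] at h1
        have h3 := hχ (k + 1) (by omega) hk
        rw [Y_succ, eval_neg, eval_mul, eval_C]
        field_simp
        linear_combination h1
  obtain ⟨k, rfl⟩ : ∃ k, g = k + 1 := ⟨g - 1, by omega⟩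
  have h1 := hy' (k + 1)
  rw [Finset.sum_range_succ] at h1
  have e1 : k + 1 - (k + 1) = 0 := by omega
  rw [e1, hφ0, eval_C, hχg, zero_mul, add_zero] at h1
  have h2 : ∑ l ∈ Finset.range (k + 1), (φ (k + 1 - l) ((o : F) + l)).eval t * y (o + l) =
      (R χ φ (o : F) (k + 1)).eval t * y o := by
    rw [R, eval_finsetSum, Finset.sum_mul, ← Fin.sum_univ_eq_sum_range
      (fun l => (φ (k + 1 - l) ((o : F) + l)).eval t * y (o + l))]
    refine Finset.sum_congr rfl fun l _ => ?_
    rw [hYv l l.2, eval_mul]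
    ring
  rw [h2] at h1
  exact (mul_eq_zero.mp h1).resolve_right ho

end Pool.Agent.U927.PC
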