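import Pool.Agent.U927.PC.AP

set_option autoImplicit false

/-!
Weighted sums over primes whose weight depends on the class modulo `N`.
-/

namespace Pool.Agent.U927.PC

open Finset Filter Topology

/-- The average of `f` over the numbers below `N` coprime to `N`. -/
noncomputable def avg (N : ℕ) (f : ℕ → ℝ) : ℝ :=
  (∑ v ∈ range N with N.Coprime v, f v) / N.totient

lemma sum_units {N : ℕ} [NeZero N] (f : ℕ → ℝ) :
    ∑ c : (ZMod N)ˣ, f (c : ZMod N).val = ∑ v ∈ range N with N.Coprime v, f v := by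
  refine sum_bij (fun (c : (ZMod N)ˣ) _ => (c : ZMod N).val) ?_ ?_ ?_ ?_
  · intro c _
    rw [mem_filter, mem_range]
    exact ⟨ZMod.val_lt _, (ZMod.val_coe_unit_coprime c).symm⟩
  · intro c _ c' _ h
    exact Units.ext (ZMod.val_injective N h)
  · intro v hv
    rw [mem_filter, mem_range] at hv
    refine ⟨ZMod.unitOfCoprime v hv.2.symm, mem_univ _, ?_⟩
    rw [ZMod.coe_unitOfCoprime, ZMod.val_natCast, Nat.mod_eq_of_lt hv.1]
  · intro c _; rfl

lemma split_classes {N : ℕ} [NeZero N] (f : ℕ → ℝ) (u : (ZMod N)ˣ) (n : ℕ) :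
    ∑ p ∈ Icc 1 n with p.Prime ∧ ¬ p ∣ N, f ((u : ZMod N) * (p : ZMod N)⁻¹).val * (Real.log p / p) =
      ∑ c : (ZMod N)ˣ, f ((u * c⁻¹ : (ZMod N)ˣ) : ZMod N).val * ∑ k ∈ Icc 1 n, wc (c : ZMod N) k / k := by
  simp only [mul_sum]
  rw [sum_comm, sum_filter]
  refine sum_congr rfl fun k _ => ?_
  split_ifs with h
  · have hcop : k.Coprime N := (Nat.Prime.coprime_iff_not_dvd h.1).mpr h.2
    rw [sum_eq_single (ZMod.unitOfCoprime k hcop)]
    · unfold wc
      rw [if_pos ⟨h.1, (ZMod.coe_unitOfCoprime k hcop).symm⟩, Units.val_mul, ← ZMod.inv_coe_unit,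
        ZMod.coe_unitOfCoprime]
    · intro c _ hc
      unfold wc
      rw [if_neg, zero_div, mul_zero]
      rintro ⟨-, h2⟩
      exact hc (Units.ext (by rw [ZMod.coe_unitOfCoprime, h2]))
    · intro h0; exact absurd (mem_univ _) h0
  · symm
    refine sum_eq_zero fun c _ => ?_
    unfold wc
    rw [if_neg, zero_div, mul_zero]
    rintro ⟨h1, h2⟩
    refine h ⟨h1, fun h3 => ?_⟩
    have h4 : IsUnit (k : ZMod N) := by rw [h2]; exact c.isUnit
    have h5 : k.Coprime N := (ZMod.isUnit_iff_coprime k N).mp h4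
    exact (Nat.Prime.coprime_iff_not_dvd h1).mp h5 h3

lemma ws_tendsto {N : ℕ} [NeZero N] (f : ℕ → ℝ) (u : (ZMod N)ˣ) :
    Tendsto (fun n : ℕ => (∑ p ∈ Icc 1 n with p.Prime ∧ ¬ p ∣ N,
      f ((u : ZMod N) * (p : ZMod N)⁻¹).val * (Real.log p / p)) / Real.log n) atTop
      (𝓝 (avg N f)) := by
  have h1 : Tendsto (fun n : ℕ => ∑ c : (ZMod N)ˣ, f ((u * c⁻¹ : (ZMod N)ˣ) : ZMod N).val *
      ((∑ k ∈ Icc 1 n, wc (c : ZMod N) k / k) / Real.log n)) atTop
      (𝓝 (∑ c : (ZMod N)ˣ, f ((u * c⁻¹ : (ZMod N)ˣ) : ZMod N).val * (N.totient : ℝ)⁻¹)) :=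
    tendsto_finsetSum _ fun c _ => (tc_tendsto c.isUnit).const_mul _
  have h2 : ∑ c : (ZMod N)ˣ, f ((u * c⁻¹ : (ZMod N)ˣ) : ZMod N).val * (N.totient : ℝ)⁻¹ = avg N f := by
    rw [← sum_mul, avg, div_eq_mul_inv, ← sum_units]
    congr 1
    exact Equiv.sum_comp ((Equiv.inv (ZMod N)ˣ).trans (Equiv.mulLeft u))
      (fun c : (ZMod N)ˣ => f (c : ZMod N).val)
  rw [h2] at h1
  refine h1.congr fun n => ?_
  rw [split_classes, sum_div]
  exact sum_congr rfl fun c _ => by rw [mul_div_assoc]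

theorem ws {N : ℕ} [NeZero N] (f : ℕ → ℝ) {δ : ℝ} (hδ : 0 < δ) :
    ∃ Y₀ : ℕ, ∀ u : (ZMod N)ˣ, ∀ n : ℕ, Y₀ ≤ n →
      |∑ p ∈ Icc 1 n with p.Prime ∧ ¬ p ∣ N,
        f ((u : ZMod N) * (p : ZMod N)⁻¹).val * (Real.log p / p) - avg N f * Real.log n| ≤
        δ * Real.log n := by
  have h : ∀ᶠ n : ℕ in atTop, ∀ u : (ZMod N)ˣ,
      |∑ p ∈ Icc 1 n with p.Prime ∧ ¬ p ∣ N,
        f ((u : ZMod N) * (p : ZMod N)⁻¹).val * (Real.log p / p) - avg N f * Real.log n| ≤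
        δ * Real.log n := by
    rw [eventually_all]
    intro u
    have h1 := (ws_tendsto f u).eventually (Metric.ball_mem_nhds _ hδ)
    have hlog : Tendsto (fun n : ℕ => Real.log n) atTop atTop :=
      Real.tendsto_log_atTop.comp tendsto_natCast_atTop_atTop
    filter_upwards [h1, hlog.eventually_gt_atTop 0] with n hn hn0
    rw [Real.dist_eq] at hn
    have h2 : ∑ p ∈ Icc 1 n with p.Prime ∧ ¬ p ∣ N,
        f ((u : ZMod N) * (p : ZMod N)⁻¹).val * (Real.log p / p) - avg N f * Real.log n =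
        ((∑ p ∈ Icc 1 n with p.Prime ∧ ¬ p ∣ N,
        f ((u : ZMod N) * (p : ZMod N)⁻¹).val * (Real.log p / p)) / Real.log n - avg N f) *
          Real.log n := by
      field_simp
    rw [h2, abs_mul, abs_of_pos hn0]
    exact mul_le_mul_of_nonneg_right hn.le hn0.le
  obtain ⟨Y₀, hY⟩ := eventually_atTop.mp h
  exact ⟨Y₀, fun u n hn => hY n hn u⟩

end Pool.Agent.U927.PC
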